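import Pool.Agent.P.MP_860ca8_ag.Lower

/-! The basic non-compression spaces and the lower bound. -/

namespace Pool.Agent.P.MP_860ca8_ag

open Module Submodule Filter

variable {K : Type*} [Field K]

/-- symmetric product of two functionals -/
def sp {V : Type*} [AddCommGroup V] [Module K V] (φ ψ : V →ₗ[K] K) : V →ₗ[K] Dual K V :=
  φ.smulRight ψ + ψ.smulRight φ

@[simp] theorem sp_apply {V : Type*} [AddCommGroup V] [Module K V] (φ ψ : V →ₗ[K] K) (x y : V) :
    sp φ ψ x y = φ x * ψ y + ψ x * φ y := rfl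

section symP
variable {ι : Type*} [Fintype ι] [DecidableEq ι]

variable (K ι) in
/-- all symmetric forms -/
noncomputable def symP : (Sym2 ι → K) →ₗ[K] (ι → K) →ₗ[K] Dual K (ι → K) :=
  Matrix.toBilin'.toLinearMap ∘ₗ
    { toFun := fun f => Matrix.of fun i j => f s(i, j)
      map_add' := fun _ _ => rfl
      map_smul' := fun _ _ => rfl }

theorem symP_single (f : Sym2 ι → K) (i j : ι) :
    symP K ι f (Pi.single i 1) (Pi.single j 1) = f s(i, j) :=
  Matrix.toBilin'_single _ i j

theorem symP_sym : Sym (symP K ι) := fun f x y => by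
  show Matrix.toBilin' _ x y = Matrix.toBilin' _ y x
  rw [Matrix.toBilin'_apply, Matrix.toBilin'_apply, Finset.sum_comm]
  refine Finset.sum_congr rfl fun i _ => Finset.sum_congr rfl fun j _ => ?_
  simp only [LinearMap.coe_mk, AddHom.coe_mk, Matrix.of_apply, Sym2.eq_swap (a := i)]
  ring

theorem symP_injective : Function.Injective (symP K ι) := fun f g h => by
  ext z
  induction z using Sym2.ind with
  | _ i j => rw [← symP_single f, h, symP_single]

theorem symP_surj {B : (ι → K) →ₗ[K] Dual K (ι → K)} (hB : ∀ x y, B x y = B y x) :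
    ∃ f, symP K ι f = B := by
  refine ⟨Sym2.lift ⟨fun i j => B (Pi.single i 1) (Pi.single j 1), fun i j => hB _ _⟩, ?_⟩
  ext i j
  exact symP_single _ i j

omit [DecidableEq ι] in
theorem finrank_symP : finrank K (Sym2 ι → K) = (Fintype.card ι + 1).choose 2 := by
  rw [finrank_fintype_fun_eq_card, Sym2.card]

end symP

theorem good_alt (h2 : (2 : K) = 0) (t : ℕ) (ht : 2 ≤ t) (he : Even t) :
    Good K (Fin (t + 1) → K) t ((t + 1).choose 2) := by
  let D : (Sym2 (Fin (t + 1)) → K) →ₗ[K] (Fin (t + 1) → K) := LinearMap.funLeft K K Sym2.diag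
  have hD : ∀ f, f ∈ LinearMap.ker D ↔ ∀ i, f s(i, i) = 0 := fun f => funext_iff
  have hV : finrank K (Fin (t + 1) → K) = t + 1 := by simp
  refine good_of (symP K _ ∘ₗ (LinearMap.ker D).subtype)
    (symP_injective.comp (Submodule.injective_subtype _)) ?_ (fun a => symP_sym _) ?_ ?_
  · have k1 := rk_add_ker D
    have k2 : rk D ≤ t + 1 := (Submodule.finrank_le _).trans hV.le
    rw [finrank_symP, Fintype.card_fin, choose_succ_two (t + 1)] at k1
    omega
  · rintro ⟨f, hf⟩
    have k1 : Even (rk (symP K _ f)) := by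
      refine even_rk _ _ _ rfl (symP_sym f) fun x => ?_
      induction x using Pi.single_induction with
      | zero => simp
      | add x y hx hy =>
        simp only [map_add, LinearMap.add_apply, hx, hy, symP_sym f y x]
        linear_combination (symP K _ f x y) * h2
      | single i c =>
        have : (Pi.single i c : Fin (t + 1) → K) = c • Pi.single i 1 := by
          rw [← Pi.single_smul, smul_eq_mul, mul_one]
        rw [this]
        simp [symP_single, (hD f).1 hf i]
    have k2 : rk (symP K _ f) ≤ t + 1 := (LinearMap.finrank_range_le _).trans hV.le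
    show rk (symP K _ f) ≤ t
    rw [Nat.even_iff] at k1 he
    omega
  intro U W hUW
  have key : ∀ u ∈ U, u ≠ 0 → ∀ w : Dual K (Fin (t + 1) → K), w u = 0 → w ∈ W := by
    intro u hu hu0 w hw
    obtain ⟨φ, hφ⟩ := Module.Projective.exists_dual_eq_one K hu0
    obtain ⟨f, hf⟩ := symP_surj (B := sp φ w) (fun x y => by simp; ring)
    have k : f ∈ LinearMap.ker D := (hD f).2 fun i => by
      rw [← symP_single f, hf, sp_apply]
      linear_combination (φ (Pi.single i 1) * w (Pi.single i 1)) * h2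
    refine (congrArg (· ∈ W) (LinearMap.ext fun y => ?_)).mp (hUW ⟨f, k⟩ u hu)
    simp [hf, hφ, hw]
  by_cases hU : U = ⊤
  · have : W = ⊤ := eq_top_iff.2 fun ψ _ => by
      have h01 : (⟨1, by omega⟩ : Fin (t + 1)) ≠ 0 := by simp
      have k1 := key (Pi.single 0 1) (hU ▸ Submodule.mem_top) (by simp)
        (ψ - ψ (Pi.single 0 1) • LinearMap.proj 0) (by simp)
      have k2 := key (Pi.single ⟨1, by omega⟩ 1) (hU ▸ Submodule.mem_top) (by simp)
        (ψ (Pi.single 0 1) • LinearMap.proj 0) (by simp [h01.symm])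
      simpa using W.add_mem k1 k2
    rw [this, hU, finrank_top, finrank_top, Subspace.dual_finrank_eq]
    omega
  by_cases hU0 : U = ⊥
  · rw [hU0, finrank_bot]; omega
  obtain ⟨u, hu, hu0⟩ := Submodule.exists_mem_ne_zero_of_ne_bot hU0
  have k1 : (span K {u}).dualAnnihilator ≤ W := fun w hw =>
    key u hu hu0 w ((Submodule.mem_dualAnnihilator w).1 hw u (mem_span_singleton_self u))
  have k2 := Submodule.finrank_mono k1
  have k3 := Subspace.finrank_add_finrank_dualAnnihilator_eq (span K {u})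
  have k4 := Submodule.finrank_lt hU
  rw [finrank_span_singleton hu0] at k3
  omega

/-- coordinate functionals -/
abbrev pr {ι : Type*} (i : ι) : (ι → K) →ₗ[K] K := LinearMap.proj i

variable (K) in
/-- the net of quadrics through the cubic scroll -/
def scroll : (Fin 3 → K) →ₗ[K] (Fin 5 → K) →ₗ[K] Dual K (Fin 5 → K) :=
  (pr 0).smulRight (sp (pr 0) (pr 2) - sp (pr 1) (pr 1)) +
  (pr 1).smulRight (sp (pr 0) (pr 4) - sp (pr 1) (pr 3)) +
  (pr 2).smulRight (sp (pr 1) (pr 4) - sp (pr 2) (pr 3))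

theorem scroll_apply (a : Fin 3 → K) (x y : Fin 5 → K) : scroll K a x y =
    a 0 * (x 0 * y 2 + x 2 * y 0 - 2 * x 1 * y 1) +
    a 1 * (x 0 * y 4 + x 4 * y 0 - x 1 * y 3 - x 3 * y 1) +
    a 2 * (x 1 * y 4 + x 4 * y 1 - x 2 * y 3 - x 3 * y 2) := by
  simp [scroll]; ring

theorem good_scroll : Good K (Fin 5 → K) 4 3 := by
  refine good_of (scroll K) ?_ (by simp) (fun a x y => by simp only [scroll_apply]; ring) ?_ ?_
  · rw [injective_iff_map_eq_zero]
    intro a ha
    have h : ∀ x y, scroll K a x y = 0 := fun x y => by rw [ha]; rfl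
    have h0 := h (Pi.single 0 1) (Pi.single 2 1)
    have h1 := h (Pi.single 0 1) (Pi.single 4 1)
    have h2 := h (Pi.single 1 1) (Pi.single 4 1)
    simp [scroll_apply] at h0 h1 h2
    ext i; fin_cases i <;> simp [h0, h1, h2]
  · intro a
    by_cases h : a 1 = 0 ∧ a 2 = 0
    · refine rk_le_of_ker (x := Pi.single 3 1) (by simp) (LinearMap.ext fun y => ?_) (by simp)
      simp [scroll_apply, h.1, h.2]
    · refine rk_le_of_ker (x := ![a 2 ^ 2, -(a 1 * a 2), a 1 ^ 2, a 0 * a 2, -(a 0 * a 1)])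
        (fun k => h ?_) (LinearMap.ext fun y => ?_) (by simp)
      · have k0 := congrFun k 0
        have k2 := congrFun k 2
        simp at k0 k2
        exact ⟨k2, k0⟩
      · simp [scroll_apply]; ring
  refine nc_of_blow _ (Pi.single 0 1) (Pi.single 1 1) (Pi.single 2 1) (Pi.single 0 1) ?_ (by simp)
  intro u v h1 h2
  have e1 := fun i => congrArg (fun g => g (Pi.single i 1)) h1
  have e2 := fun i => congrArg (fun g => g (Pi.single i 1)) h2
  have a0 := e1 0; have a1 := e1 1; have a2 := e1 2; have a3 := e1 3; have a4 := e1 4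
  have b0 := e2 0; have b1 := e2 1; have b2 := e2 2; have b3 := e2 3; have b4 := e2 4
  simp [scroll_apply] at a0 a1 a2 a3 a4 b0 b1 b2 b3 b4
  simp [a3, a4, b3, b4] at a0 a1 b1 b2
  constructor <;> ext i <;> fin_cases i <;> simp [*]

variable (K) in
/-- the skew block -/
def skew (z : ℕ) : (Fin 3 → K) →ₗ[K] ((Fin 3 → K) × (Fin 3 ⊕ Fin z → K)) →ₗ[K]
    Dual K ((Fin 3 → K) × (Fin 3 ⊕ Fin z → K)) :=
  let x (i : Fin 3) := pr i ∘ₗ LinearMap.fst K (Fin 3 → K) (Fin 3 ⊕ Fin z → K)
  let y (i : Fin 3) := pr (Sum.inl i) ∘ₗ LinearMap.snd K (Fin 3 → K) (Fin 3 ⊕ Fin z → K)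
  (pr 0).smulRight (sp (x 1) (y 2) - sp (x 2) (y 1)) +
  (pr 1).smulRight (sp (x 2) (y 0) - sp (x 0) (y 2)) +
  (pr 2).smulRight (sp (x 0) (y 1) - sp (x 1) (y 0))

theorem skew_apply (z : ℕ) (a : Fin 3 → K) (u v : (Fin 3 → K) × (Fin 3 ⊕ Fin z → K)) :
    skew K z a u v =
    a 0 * (u.1 1 * v.2 (.inl 2) + u.2 (.inl 2) * v.1 1 - u.1 2 * v.2 (.inl 1) - u.2 (.inl 1) * v.1 2) +
    a 1 * (u.1 2 * v.2 (.inl 0) + u.2 (.inl 0) * v.1 2 - u.1 0 * v.2 (.inl 2) - u.2 (.inl 2) * v.1 0) +
    a 2 * (u.1 0 * v.2 (.inl 1) + u.2 (.inl 1) * v.1 0 - u.1 1 * v.2 (.inl 0) - u.2 (.inl 0) * v.1 1) := by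
  simp [skew]; ring

theorem good_skew (z : ℕ) :
    Good K ((Fin 3 → K) × (Fin 3 ⊕ Fin z → K)) (z + 5) ((z + 4).choose 2 + 3) := by
  have hV : finrank K ((Fin 3 → K) × (Fin 3 ⊕ Fin z → K)) = z + 6 := by simp; omega
  set Φ := (skew K z).coprod (res (LinearMap.snd K (Fin 3 → K) (Fin 3 ⊕ Fin z → K)) ∘ₗ symP K _)
    with hΦ
  have Φa : ∀ a f u v, Φ (a, f) u v = skew K z a u v + symP K _ f u.2 v.2 := fun _ _ _ _ => rfl
  refine good_of Φ ?_ ?_ (fun ⟨a, f⟩ x y => ?_) ?_ ?_
  · rw [injective_iff_map_eq_zero]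
    rintro ⟨a, f⟩ ha
    have h : ∀ x y, Φ (a, f) x y = 0 := fun x y => by rw [ha]; rfl
    have h0 := h (Pi.single 1 1, 0) (0, Pi.single (.inl 2) 1)
    have h1 := h (Pi.single 2 1, 0) (0, Pi.single (.inl 0) 1)
    have h2 := h (Pi.single 0 1, 0) (0, Pi.single (.inl 1) 1)
    simp [Φa, skew_apply] at h0 h1 h2
    refine Prod.ext ?_ (symP_injective (LinearMap.ext₂ fun x y => ?_))
    · ext i; fin_cases i <;> simp [h0, h1, h2]
    · simpa [Φa, skew_apply] using h (0, x) (0, y)
  · rw [finrank_prod, finrank_symP]; simp; rw [show 3 + z + 1 = z + 4 by omega]; omega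
  · rw [Φa, Φa, symP_sym f, skew_apply, skew_apply]; ring
  · rintro ⟨a, f⟩
    by_cases h : a = 0
    · refine rk_le_of_ker (x := (Pi.single 0 1, 0)) (by simp) (LinearMap.ext fun y => ?_) hV.le
      simp [Φa, h]
    · refine rk_le_of_ker (x := (a, 0)) (by simp [h]) (LinearMap.ext fun y => ?_) hV.le
      simp [Φa, skew_apply]; ring
  obtain ⟨f0, hf0⟩ := symP_surj (K := K) (ι := Fin 3 ⊕ Fin z)
    (B := res (LinearMap.funLeft K K Sum.inr) (dotProductEquiv K (Fin z)).toLinearMap)
    (fun x y => dotProduct_comm (fun j => x (.inr j)) (fun j => y (.inr j)))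
  have hf : ∀ x y, symP K _ f0 x y = ∑ j, x (.inr j) * y (.inr j) := fun x y => by rw [hf0]; rfl
  refine nc_of_blow _ (Pi.single 0 1, f0) (Pi.single 1 1, 0) (Pi.single 1 1, 0) (Pi.single 2 1, f0)
    ?_ (by omega)
  intro u v h1 h2
  have e1 := fun w => congrArg (fun g => g w) h1
  have e2 := fun w => congrArg (fun g => g w) h2
  simp only [LinearMap.add_apply, Φa, hf, skew_apply, map_zero, LinearMap.zero_apply] at e1 e2
  have a0 := e1 (Pi.single 0 1, 0); have a1 := e1 (Pi.single 1 1, 0)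
  have a2 := e1 (Pi.single 2 1, 0); have b0 := e2 (Pi.single 0 1, 0)
  have b1 := e2 (Pi.single 1 1, 0); have b2 := e2 (Pi.single 2 1, 0)
  have c0 := e1 (0, Pi.single (.inl 0) 1); have c1 := e1 (0, Pi.single (.inl 1) 1)
  have c2 := e1 (0, Pi.single (.inl 2) 1); have d0 := e2 (0, Pi.single (.inl 0) 1)
  have d1 := e2 (0, Pi.single (.inl 1) 1); have d2 := e2 (0, Pi.single (.inl 2) 1)
  have f1 := fun j => e1 (0, Pi.single (.inr j) 1)
  have f2 := fun j => e2 (0, Pi.single (.inr j) 1)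
  simp [Pi.single_apply] at a0 a1 a2 b0 b1 b2 c0 c1 c2 d0 d1 d2 f1 f2
  simp [a1, b1, c1, d1] at a2 b0 c2 d0
  refine ⟨Prod.ext ?_ ?_, Prod.ext ?_ ?_⟩
  · ext i; fin_cases i <;> simp [*]
  · ext (i | j)
    · fin_cases i <;> simp [*]
    · simp [*]
  · ext i; fin_cases i <;> simp [*]
  · ext (i | j)
    · fin_cases i <;> simp [*]
    · simp [*]

theorem good_core (n t : ℕ) (ht : minCore (ringChar K) ≤ t + 1) (hn : t < n) :
    Good K (Fin n → K) t (core (ringChar K) (t + 1)) := by
  unfold minCore at ht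
  unfold core
  by_cases hp : ringChar K = 2
  · rw [if_pos hp] at ht ⊢
    have h2 := two_eq_zero_iff.2 hp
    split_ifs with ho
    · exact (good_alt h2 t (by omega) (by rw [Nat.odd_iff] at ho; rw [Nat.even_iff]; omega)).pad
        (by simp; omega)
    · obtain ⟨k, rfl⟩ : ∃ k, t = k + 1 := ⟨t - 1, by omega⟩
      rw [Nat.odd_iff] at ho
      exact (good_alt h2 k (by omega) (by rw [Nat.even_iff]; omega)).corner.pad (by simp; omega)
  · rw [if_neg hp] at ht ⊢
    split_ifs with h5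
    · obtain rfl : t = 4 := by omega
      exact good_scroll.pad (by simp; omega)
    · obtain ⟨z, rfl⟩ : ∃ z, t = z + 5 := ⟨t - 5, by omega⟩
      exact (good_skew z).pad (by simp; omega)

theorem lower (t : ℕ) (ht : minCore (ringChar K) ≤ t + 1) (s : ℕ) : ∀ n, t + 2 * s < n →
    Good K (Fin n → K) (t + 2 * s) (s * (n - s) + (s + 1).choose 2 + core (ringChar K) (t + 1)) := by
  induction s with
  | zero => intro n hn; simpa using good_core n t ht hn
  | succ s ih =>
    intro n hn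
    obtain ⟨k, rfl⟩ : ∃ k, n = s + k + 1 := ⟨n - s - 1, by omega⟩
    have := ((ih (s + k) (by omega)).free (by simp; omega)).pad (V' := Fin (s + k + 1) → K)
      (by simp)
    rw [finrank_fin_fun, show s + k - s = k by omega] at this
    rw [show s + k + 1 - (s + 1) = k by omega, choose_succ_two (s + 1),
      show (s + 1) * k + ((s + 1).choose 2 + (s + 1)) + core (ringChar K) (t + 1) =
        s * k + (s + 1).choose 2 + core (ringChar K) (t + 1) + (s + k) + 1 by ring]
    exact this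

end Pool.Agent.P.MP_860ca8_ag
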