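import Pool.Agent.P.MP_860ca8_ag.Gen

/-! Dimension bounds for primitive spaces by greedy choice of kernel vectors. -/

namespace Pool.Agent.P.MP_860ca8_ag

open Module Submodule Filter

variable {K : Type*} [Field K]
variable {P : Type*} [AddCommGroup P] [Module K P]
variable {X Y Z : Type*} [AddCommGroup X] [Module K X] [AddCommGroup Y] [Module K Y]
  [AddCommGroup Z] [Module K Z]

/-- parameters whose map kills `H` -/
def kil (Φ : P →ₗ[K] X →ₗ[K] Y) (H : Submodule K X) : Submodule K P where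
  carrier := {a | ∀ x ∈ H, Φ a x = 0}
  add_mem' := fun ha hb x hx => by simp [ha x hx, hb x hx]
  zero_mem' := fun x _ => by simp
  smul_mem' := fun c a ha x hx => by simp [ha x hx]

theorem mem_kil {Φ : P →ₗ[K] X →ₗ[K] Y} {H : Submodule K X} {a : P} :
    a ∈ kil Φ H ↔ ∀ x ∈ H, Φ a x = 0 := Iff.rfl

theorem kil_sup (Φ : P →ₗ[K] X →ₗ[K] Y) (H : Submodule K X) (x : X) :
    kil Φ (H ⊔ span K {x}) = kil Φ H ⊓ LinearMap.ker (Φ.flip x) := by
  ext a
  simp only [mem_kil, mem_inf, LinearMap.mem_ker, LinearMap.flip_apply]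
  constructor
  · intro h
    exact ⟨fun y hy => h y (mem_sup_left hy), h x (mem_sup_right (mem_span_singleton_self x))⟩
  · rintro ⟨h1, h2⟩ y hy
    obtain ⟨u, hu, v, hv, rfl⟩ := mem_sup.1 hy
    obtain ⟨c, rfl⟩ := mem_span_singleton.1 hv
    simp [h1 u hu, h2]

theorem kil_bot (Φ : P →ₗ[K] X →ₗ[K] Y) : kil Φ ⊥ = ⊤ := by
  ext a; simp [mem_kil]

theorem kil_top (Φ : P →ₗ[K] X →ₗ[K] Y) : kil Φ ⊤ = LinearMap.ker Φ := by
  ext a; simp [mem_kil, LinearMap.ext_iff]

theorem exists_notMem_two {S W0 W1 : Submodule K X} (h0 : ¬ S ≤ W0) (h1 : ¬ S ≤ W1) :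
    ∃ x ∈ S, x ∉ W0 ∧ x ∉ W1 := by
  obtain ⟨a, ha, ha0⟩ := SetLike.not_le_iff_exists.1 h0
  obtain ⟨b, hb, hb1⟩ := SetLike.not_le_iff_exists.1 h1
  by_cases ha1 : a ∈ W1
  · by_cases hb0 : b ∈ W0
    · refine ⟨a + b, S.add_mem ha hb, fun h => ha0 ?_, fun h => hb1 ?_⟩
      · simpa using W0.sub_mem h hb0
      · simpa using W1.sub_mem h ha1
    · exact ⟨b, hb, hb0, hb1⟩
  · exact ⟨a, ha, ha0, ha1⟩

variable [FiniteDimensional K P] [FiniteDimensional K X]

theorem chain (Ψ : P →ₗ[K] X →ₗ[K] Y) (S0 : Submodule K P) (ok : Submodule K X → Prop)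
    (e c0 : ℕ) (g : ℕ → ℕ)
    (hstep : ∀ H, ok H → finrank K H < e → ∃ x, x ∉ H ∧ ok (H ⊔ span K {x}) ∧
      finrank K ((S0 ⊓ kil Ψ H).map (Ψ.flip x)) ≤ g (e - finrank K H))
    (hterm : ∀ H, ok H → finrank K H = e → finrank K (S0 ⊓ kil Ψ H : Submodule K P) ≤ c0)
    (j : ℕ) : ∀ H, ok H → finrank K H + j = e →
      finrank K (S0 ⊓ kil Ψ H : Submodule K P) ≤ c0 + ∑ l ∈ Finset.range j, g (l + 1) := by
  induction j with
  | zero => intro H h1 h2; simpa using hterm H h1 h2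
  | succ j ih =>
    intro H h1 h2
    obtain ⟨x, hx, hok, hb⟩ := hstep H h1 (by omega)
    have h3 := ih _ hok (by rw [Submodule.finrank_sup_span_singleton hx]; omega)
    have h4 := finrank_map_add (S0 ⊓ kil Ψ H) (Ψ.flip x)
    rw [kil_sup, ← inf_assoc] at h3
    rw [show e - finrank K H = j + 1 by omega] at hb
    rw [Finset.sum_range_succ]
    omega

theorem chain_top (Ψ : P →ₗ[K] X →ₗ[K] Y) (S0 : Submodule K P) (g : ℕ → ℕ)
    (hstep : ∀ H : Submodule K X, H ≠ ⊤ → ∃ x, x ∉ H ∧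
      finrank K ((S0 ⊓ kil Ψ H).map (Ψ.flip x)) ≤ g (finrank K X - finrank K H))
    (j : ℕ) (H : Submodule K X) (hH : finrank K H + j = finrank K X) :
    finrank K (S0 ⊓ kil Ψ H : Submodule K P) ≤
      finrank K (LinearMap.ker Ψ) + ∑ l ∈ Finset.range j, g (l + 1) := by
  refine chain Ψ S0 (fun _ => True) (finrank K X) _ g ?_ ?_ j H trivial hH
  · intro H _ h
    obtain ⟨x, h1, h2⟩ := hstep H (by rintro rfl; simp at h)
    exact ⟨x, h1, trivial, h2⟩
  · intro H _ h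
    rw [Submodule.eq_top_of_finrank_eq h, kil_top]
    exact Submodule.finrank_mono inf_le_right

variable [Infinite K]

/-- primitive family of generic rank `e` -/
structure Prim (Φ : P →ₗ[K] X →ₗ[K] Y) (e : ℕ) : Prop where
  le : ∀ a, rk (Φ a) ≤ e
  gen : ∀ᶠ a in Gen K P, rk (Φ a) = e
  ker : ∀ W : Submodule K X, W ≠ ⊤ → ∀ᶠ a in Gen K P, ¬ LinearMap.ker (Φ a) ≤ W
  im : ∀ y : Y, y ≠ 0 → ∀ᶠ a in Gen K P, y ∉ LinearMap.range (Φ a)

omit [FiniteDimensional K P] [Infinite K] in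
theorem finrank_map_of_disjoint {M : X →ₗ[K] Y} {H : Submodule K X}
    (h : Disjoint H (LinearMap.ker M)) : finrank K (H.map M) = finrank K H := by
  have := finrank_map_add H M
  rwa [h.eq_bot, finrank_bot, add_zero] at this

omit [FiniteDimensional K P] in
theorem gen_disjoint (Φ : P →ₗ[K] X →ₗ[K] Y) {H : Submodule K X} {a : P}
    (h : Disjoint H (LinearMap.ker (Φ a))) :
    ∀ᶠ b in Gen K P, Disjoint H (LinearMap.ker (Φ b)) := by
  let Ψ : P →ₗ[K] H →ₗ[K] Y := (LinearMap.lcomp K Y H.subtype) ∘ₗ Φ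
  have hr : ∀ b, LinearMap.range (Ψ b) = H.map (Φ b) := fun b => by
    show LinearMap.range (Φ b ∘ₗ H.subtype) = _
    rw [LinearMap.range_comp, range_subtype]
  have h1 : finrank K H ≤ rk (Ψ a) := by
    unfold rk; rw [hr, finrank_map_of_disjoint h]
  filter_upwards [gen_rk Ψ _ h1] with b hb
  unfold rk at hb
  rw [hr] at hb
  have := finrank_map_add H (Φ b)
  rw [disjoint_iff, ← Submodule.finrank_eq_zero]
  omega

variable {Φ : P →ₗ[K] X →ₗ[K] Y} {e : ℕ}

omit [FiniteDimensional K P] in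
theorem Prim.term (h : Prim Φ e) {H : Submodule K X} (hH : finrank K H = e)
    (hd : ∀ᶠ a in Gen K P, Disjoint H (LinearMap.ker (Φ a))) : kil Φ H ≤ LinearMap.ker Φ := by
  intro a ha
  rw [LinearMap.mem_ker]
  ext v
  by_contra hv
  obtain ⟨b, hb1, hb2⟩ := ((h.im _ hv).and hd).exists
  apply hb1
  have e1 : H.map (Φ b) = LinearMap.range (Φ (b + a)) := by
    refine Submodule.eq_of_le_of_finrank_le ?_ ?_
    · rintro _ ⟨x, hx, rfl⟩
      exact ⟨x, by simp [ha x hx]⟩
    · rw [finrank_map_of_disjoint hb2, hH]; exact h.le _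
  have h1 : Φ (b + a) v ∈ H.map (Φ b) := e1 ▸ LinearMap.mem_range_self _ v
  have h2 : Φ (b + a) v ∈ LinearMap.range (Φ b) := LinearMap.map_le_range h1
  have := Submodule.sub_mem _ h2 (LinearMap.mem_range_self (Φ b) v)
  simpa using this

theorem Prim.greedy (h : Prim Φ e) {W0 : Submodule K X} (hW0 : W0 ≠ ⊤) (H0 : Submodule K X)
    (g : ℕ → ℕ)
    (hstep : ∀ H, H0 ≤ H → (∀ᶠ a in Gen K P, Disjoint H (LinearMap.ker (Φ a))) →
      ∀ᶠ a in Gen K P, ∀ x, Φ a x = 0 → x ∉ W0 →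
        finrank K ((kil Φ H).map (Φ.flip x)) ≤ g (e - finrank K H))
    (hH0 : ∀ᶠ a in Gen K P, Disjoint H0 (LinearMap.ker (Φ a))) (j : ℕ)
    (hj : finrank K H0 + j = e) :
    finrank K (kil Φ H0) ≤ finrank K (LinearMap.ker Φ) + ∑ l ∈ Finset.range j, g (l + 1) := by
  have := chain Φ ⊤ (fun H => H0 ≤ H ∧ ∀ᶠ a in Gen K P, Disjoint H (LinearMap.ker (Φ a))) e
    (finrank K (LinearMap.ker Φ)) g ?_ ?_ j H0 ⟨le_rfl, hH0⟩ hj
  · rwa [top_inf_eq] at this
  · rintro H ⟨h1, h2⟩ h3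
    obtain ⟨a0, ha0, ha0'⟩ := (h2.and h.gen).exists
    have hW1 : H ⊔ LinearMap.ker (Φ a0) ≠ ⊤ := by
      intro ht
      have e1 := Submodule.finrank_sup_add_finrank_inf_eq H (LinearMap.ker (Φ a0))
      have e2 := rk_add_ker (Φ a0)
      rw [ht, finrank_top] at e1
      omega
    obtain ⟨a1, ⟨k0, k1⟩, k2⟩ := (((h.ker _ hW0).and (h.ker _ hW1)).and (hstep H h1 h2)).exists
    obtain ⟨x, hx, hx0, hx1⟩ := exists_notMem_two k0 k1
    refine ⟨x, fun hh => hx1 (mem_sup_left hh), ⟨h1.trans le_sup_left, gen_disjoint Φ (a := a0) ?_⟩,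
      ?_⟩
    · rw [Submodule.disjoint_def]
      intro y hy hy0
      obtain ⟨u, hu, v, hv, rfl⟩ := mem_sup.1 hy
      obtain ⟨c, rfl⟩ := mem_span_singleton.1 hv
      have hc : c = 0 := by
        by_contra hc
        apply hx1
        rw [← Submodule.smul_mem_iff _ hc]
        have := Submodule.sub_mem _ (mem_sup_right hy0 : _ ∈ H ⊔ LinearMap.ker (Φ a0))
          (mem_sup_left hu)
        simpa using this
      subst hc
      simp only [zero_smul, add_zero] at hy0 ⊢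
      exact Submodule.disjoint_def.1 ha0 u hu hy0
    · rw [top_inf_eq]; exact k2 x hx hx0
  · rintro H ⟨-, h2⟩ h3
    rw [top_inf_eq]
    exact Submodule.finrank_mono (h.term h3 h2)

/-- no vector has a one-dimensional space of values -/
theorem Prim.two_le (h : Prim Φ e) {x : X} {a : P} (ha : Φ a x ≠ 0) :
    2 ≤ finrank K (LinearMap.range (Φ.flip x)) := by
  by_contra hc
  have h1 : ∀ᶠ b in Gen K P, Φ.flip x b ∉ (⊥ : Submodule K Y) :=
    gen_notMem ⊥ (Φ.flip x) (a := a) (by simpa using ha)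
  obtain ⟨b, hb1, hb2⟩ := (h1.and (h.im _ ha)).exists
  have hb0 : Φ b x ≠ 0 := by simpa using hb1
  have e1 : span K {Φ b x} = LinearMap.range (Φ.flip x) := by
    refine Submodule.eq_of_le_of_finrank_le ?_ ?_
    · exact (span_singleton_le_iff_mem _ _).2 ⟨b, rfl⟩
    · rw [finrank_span_singleton hb0]; omega
  have : Φ a x ∈ span K {Φ b x} := e1 ▸ ⟨a, rfl⟩
  obtain ⟨c, hc⟩ := mem_span_singleton.1 this
  exact hb2 ⟨c • x, by rw [map_smul, hc]⟩

omit [FiniteDimensional K P] in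
/-- the first kernel vector -/
theorem Prim.first (h : Prim Φ e) (he : 1 ≤ e) : ∃ x a0 a1, rk (Φ a1) = e ∧ Φ a1 x = 0 ∧
    Φ a0 x ≠ 0 ∧ ∀ᶠ a in Gen K P, Disjoint (span K {x}) (LinearMap.ker (Φ a)) := by
  obtain ⟨a0, ha0⟩ := h.gen.exists
  have hW : LinearMap.ker (Φ a0) ≠ ⊤ := by
    intro ht
    have e2 := rk_add_ker (Φ a0)
    rw [ht, finrank_top] at e2
    omega
  obtain ⟨a1, k0, k1⟩ := (h.gen.and (h.ker _ hW)).exists
  obtain ⟨x, hx, hx0⟩ := SetLike.not_le_iff_exists.1 k1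
  refine ⟨x, a0, a1, k0, hx, hx0, gen_disjoint Φ (a := a0) ?_⟩
  exact (Submodule.disjoint_span_singleton' (by rintro rfl; simp at hx0)).2 hx0 |>.symm

omit [FiniteDimensional K X] [Infinite K] in
theorem finrank_eq_first (Φ : P →ₗ[K] X →ₗ[K] Y) (x : X) : finrank K P =
    finrank K (LinearMap.range (Φ.flip x)) + finrank K (kil Φ (span K {x})) := by
  have := kil_sup Φ ⊥ x
  rw [bot_sup_eq, kil_bot, top_inf_eq] at this
  rw [this, LinearMap.finrank_range_add_finrank_ker]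

/-- a primitive space of rank `e` has dimension at most `e ^ 2 - 1` -/
theorem Prim.sq_bound (h : Prim Φ e) (he : 1 ≤ e) :
    2 ≤ e ∧ finrank K P + 1 ≤ finrank K (LinearMap.ker Φ) + e * e := by
  obtain ⟨x1, a0, a1, hr, hx1, hx0, hd⟩ := h.first he
  have hx : x1 ≠ 0 := by rintro rfl; simp at hx0
  have hD : LinearMap.range (Φ.flip x1) ≤ LinearMap.range (Φ a1) := by
    rintro _ ⟨a, rfl⟩; exact fa1 Φ h.le hr a hx1
  have hDe : finrank K (LinearMap.range (Φ.flip x1)) ≤ e := hr ▸ Submodule.finrank_mono hD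
  have h2 := h.two_le hx0
  have hbot : (⊥ : Submodule K X) ≠ ⊤ := by
    intro ht; exact hx ((Submodule.mem_bot K).1 (ht ▸ mem_top))
  have hP := finrank_eq_first Φ x1
  obtain ⟨j, rfl⟩ : ∃ j, e = j + 1 := ⟨e - 1, by omega⟩
  have hj : finrank K (span K {x1}) + j = j + 1 := by rw [finrank_span_singleton hx]; omega
  have hran : ∀ b, rk (Φ b) = j + 1 → ∀ x, Φ b x = 0 → ∀ H,
      (kil Φ H).map (Φ.flip x) ≤ LinearMap.range (Φ b) := by
    rintro b hb x hx H _ ⟨a, -, rfl⟩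
    exact fa1 Φ h.le hb a hx
  refine ⟨by omega, ?_⟩
  by_cases hc : finrank K (LinearMap.range (Φ.flip x1)) ≤ j
  · have := h.greedy hbot (span K {x1}) (fun _ => j + 1) (fun H _ _ => by
      filter_upwards [h.gen] with b hb x hx _
      exact hb ▸ Submodule.finrank_mono (hran b hb x hx H)) hd j hj
    simp only [Finset.sum_const, Finset.card_range, smul_eq_mul] at this
    nlinarith
  · have hDeq : LinearMap.range (Φ.flip x1) = LinearMap.range (Φ a1) :=
      Submodule.eq_of_le_of_finrank_le hD (by unfold rk at hr; omega)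
    have hall : ∀ a, Φ a x1 = 0 → LinearMap.range (Φ a) ≤ LinearMap.range (Φ a1) := by
      intro a ha
      obtain ⟨t, ht, ht0⟩ := ((rk_semicont (Φ a1) (Φ a)).and (eventually_cofinite_ne 0)).exists
      have e1 : Φ a1 + t • Φ a = Φ (a1 + t • a) := by simp
      rw [e1] at ht
      have hr' : rk (Φ (a1 + t • a)) = j + 1 := le_antisymm (h.le _) (hr ▸ ht)
      have e2 : LinearMap.range (Φ a1) = LinearMap.range (Φ (a1 + t • a)) := by
        refine Submodule.eq_of_le_of_finrank_le ?_ (by unfold rk at hr hr'; omega)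
        rw [← hDeq]
        rintro _ ⟨c, rfl⟩
        exact fa1 Φ h.le hr' c (by simp [hx1, ha])
      rintro _ ⟨v, rfl⟩
      have k1 : Φ (a1 + t • a) v ∈ LinearMap.range (Φ a1) := e2 ▸ LinearMap.mem_range_self _ v
      have := Submodule.sub_mem _ k1 (LinearMap.mem_range_self (Φ a1) v)
      rw [← Submodule.smul_mem_iff _ ht0]
      simpa using this
    have := h.greedy hbot (span K {x1}) (fun _ => j) (fun H hH _ => by
      filter_upwards [h.gen, h.im _ hx0] with b hb hb' x hx _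
      have k1 : (kil Φ H).map (Φ.flip x) < LinearMap.range (Φ a1) := by
        refine lt_of_le_of_ne ?_ ?_
        · rintro _ ⟨a, ha, rfl⟩
          exact hall a (ha x1 (hH (mem_span_singleton_self x1))) (LinearMap.mem_range_self _ x)
        · intro k2
          apply hb'
          apply hran b hb x hx H
          rw [k2]
          exact hD ⟨a0, rfl⟩
      have := Submodule.finrank_lt_finrank_of_lt k1
      unfold rk at hr
      omega) hd j hj
    simp only [Finset.sum_const, Finset.card_range, smul_eq_mul] at this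
    nlinarith

end Pool.Agent.P.MP_860ca8_ag
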