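import Pool.Agent.P.MP_860ca8_ag.Four

/-! Structure of spaces in which no hyperplane drops the rank by two. -/

namespace Pool.Agent.P.MP_860ca8_ag

open Module Submodule Filter

variable {K : Type*} [Field K]
variable {P : Type*} [AddCommGroup P] [Module K P]
variable {V : Type*} [AddCommGroup V] [Module K V]

/-- non-compression at level `ρ` -/
def NC (Φ : P →ₗ[K] V →ₗ[K] Dual K V) (ρ : ℕ) : Prop :=
  ∀ (U : Submodule K V) (W : Submodule K (Dual K V)), (∀ a, ∀ u ∈ U, Φ a u ∈ W) →
    finrank K U + ρ < finrank K W + finrank K V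

variable [FiniteDimensional K V] [FiniteDimensional K P]

theorem Sym.kil_le {Φ : P →ₗ[K] V →ₗ[K] Dual K V} (hs : Sym Φ) (U : Submodule K V) (j : ℕ)
    (hj : finrank K U + j = finrank K V) :
    finrank K (kil Φ U) ≤ finrank K (LinearMap.ker Φ) + (j + 1).choose 2 := by
  have := chain_top Φ ⊤ (fun l => l) (fun H hH => by
    obtain ⟨x, -, hx⟩ := SetLike.exists_of_lt (lt_top_iff_ne_top.2 hH)
    refine ⟨x, hx, ?_⟩
    have h1 : (⊤ ⊓ kil Φ H).map (Φ.flip x) ≤ H.dualAnnihilator := by
      rintro _ ⟨a, ha, rfl⟩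
      rw [Submodule.mem_dualAnnihilator]
      intro w hw
      simp [hs a x w, ha.2 w hw]
    have h2 := Submodule.finrank_mono h1
    have h3 := Subspace.finrank_add_finrank_dualAnnihilator_eq H
    omega) j U hj
  rwa [top_inf_eq, sum_succ_eq] at this

variable [Infinite K]

theorem lam_bound {A : Type*} [AddCommGroup A] [Module K A] [FiniteDimensional K A]
    (X : P →ₗ[K] A →ₗ[K] Dual K V) (π : Dual K V →ₗ[K] Dual K A) {e : ℕ}
    (hle : ∀ a, rk (X a) ≤ e) {b : P} (hb : rk (X b) = e) {x : A} (hx : X b x = 0) {y : V}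
    (hy : ∀ u, X b u y = 0) (S : Submodule K P) (hS : ∀ a ∈ S, π (X a x) = 0)
    (lam : P →ₗ[K] Dual K A) (hlam : ∀ a u, lam a u = X a u y) :
    finrank K (S.map lam) + finrank K (LinearMap.range (π ∘ₗ X.flip x)) ≤ e := by
  set D := LinearMap.range (X.flip x) with hD
  have hDle : D ≤ LinearMap.range (X b) := by rintro _ ⟨a, rfl⟩; exact fa1 X hle hb a hx
  have h1 := finrank_comap_of_le (X b) D hDle
  have h2 : (S ⊓ LinearMap.ker (X.flip x)).map lam ≤ (D.comap (X b)).dualAnnihilator := by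
    rintro _ ⟨a, ⟨-, ha⟩, rfl⟩
    have ha' : X a x = 0 := ha
    rw [Submodule.mem_dualAnnihilator]
    rintro z ⟨a', hz⟩
    have hz' : X b z = X a' x := hz.symm
    have k1 := fa2 X hle hb (a + a') hx (x' := z) (by simp [hz', ha'])
    have k2 := fa2 X hle hb a' hx hz'
    obtain ⟨u, hu⟩ := Submodule.sub_mem _ k1 k2
    have k3 : X a z = X b u := by simp [hu]
    rw [hlam, k3, hy]
  have h3 := Submodule.finrank_mono h2
  have h4 := Subspace.finrank_add_finrank_dualAnnihilator_eq (D.comap (X b))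
  have h5 := finrank_map_le_add S lam (X.flip x)
  have h6 := finrank_map_add D π
  have h7 : S.map (X.flip x) ≤ D ⊓ LinearMap.ker π := by
    rintro _ ⟨a, ha, rfl⟩; exact ⟨⟨a, rfl⟩, hS a ha⟩
  have h8 := Submodule.finrank_mono h7
  have h9 := rk_add_ker (X b)
  rw [LinearMap.range_comp, ← hD]
  omega

theorem core_structure {Φ : P →ₗ[K] V →ₗ[K] Dual K V} {ρ : ℕ} (hs : Sym Φ)
    (hle : ∀ a, rk (Φ a) ≤ ρ) (hgen : ∀ᶠ a in Gen K P, rk (Φ a) = ρ)
    (hprim : ∀ m : Dual K V, m ≠ 0 → ¬ ∀ a, rk (res (LinearMap.ker m).subtype (Φ a)) + 2 ≤ ρ)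
    (hnc : NC Φ ρ) : ∃ r e, ρ = r + e ∧
      ((2 ≤ e ∧ e + 1 ≤ r ∧
        finrank K P + 1 ≤ finrank K (LinearMap.ker Φ) + (r + 1).choose 2 + e * e) ∨
      ∃ f d, 1 ≤ f ∧ f ≤ e ∧ d ≤ (f + 1).choose 2 ∧
        finrank K P ≤ finrank K (LinearMap.ker Φ) + (r + 1).choose 2 + r * (e - 2) + d ∧
        (f = e → finrank K P ≤ finrank K (LinearMap.ker Φ) + (r + 1).choose 2 + d) ∧
        ((2 : K) = 0 → Even f) ∧
        ((2 : K) ≠ 0 → 4 ≤ f ∧ d ≤ (f - 1).choose 2 + 3 ∧
          (ρ = 4 → finrank K P ≤ finrank K (LinearMap.ker Φ) + 3))) := by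
  set U : Submodule K V := ⨆ b : {b // rk (Φ b) = ρ}, LinearMap.ker (Φ b) with hU
  have hU1 : ∀ b, rk (Φ b) = ρ → LinearMap.ker (Φ b) ≤ U := fun b hb =>
    le_iSup (fun b : {b // rk (Φ b) = ρ} => LinearMap.ker (Φ b)) ⟨b, hb⟩
  have hU2 : ∀ W, ¬ U ≤ W → ∀ᶠ a in Gen K P, ¬ LinearMap.ker (Φ a) ≤ W := by
    intro W hW
    by_contra hc
    exact hW (iSup_le fun b => ker_le_of_freq Φ hle W hc b.2)
  clear_value U
  set X : P →ₗ[K] U →ₗ[K] Dual K V := LinearMap.lcomp K _ U.subtype ∘ₗ Φ with hX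
  have Xa : ∀ a u, X a u = Φ a u := fun _ _ => rfl
  set Y : P →ₗ[K] U →ₗ[K] Dual K U := res U.subtype ∘ₗ Φ with hY
  have Ya : ∀ a u v, Y a u v = Φ a u v := fun _ _ _ => rfl
  have hsY : Sym Y := hs.res _
  obtain ⟨r, hr⟩ : ∃ r, finrank K U + r = finrank K V :=
    ⟨_, Nat.add_sub_of_le (Submodule.finrank_le U)⟩
  obtain ⟨e, hXle, hXgen⟩ := exists_max_rk X
  have hre : ρ = r + e := by
    obtain ⟨a, k1, k2⟩ := (hgen.and hXgen).exists
    have k3 := rk_add_ker (Φ a)
    have k4 := rk_add_ker (X a)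
    have k5 : finrank K (LinearMap.ker (X a)) = finrank K (LinearMap.ker (Φ a)) :=
      (Submodule.comapSubtypeEquivOfLe (hU1 a k1)).finrank_eq
    omega
  have hXker : ∀ W : Submodule K U, W ≠ ⊤ → ∀ᶠ a in Gen K P, ¬ LinearMap.ker (X a) ≤ W := by
    intro W hW
    have : ¬ U ≤ W.map U.subtype := fun k => hW (eq_top_iff.2 fun u _ => by
      obtain ⟨w, hw, e⟩ := k u.2
      rwa [← Subtype.ext e])
    filter_upwards [hU2 _ this, hgen] with a k1 k2 k3
    exact k1 fun x hx => ⟨⟨x, hU1 a k2 hx⟩, k3 hx, rfl⟩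
  have hXim : ∀ m : Dual K V, m ≠ 0 → ∀ᶠ a in Gen K P, m ∉ LinearMap.range (X a) := by
    intro m hm
    by_contra hc
    have hc' : ∃ᶠ a in Gen K P, m ∈ LinearMap.range (X a) := hc
    have k1 : U ≤ LinearMap.ker m := by
      by_contra k
      obtain ⟨a, ⟨u, hu⟩, k2⟩ := (hc'.and_eventually (hU2 _ k)).exists
      refine k2 fun x hx => ?_
      have hx' : Φ a x = 0 := hx
      rw [LinearMap.mem_ker, ← hu, Xa, hs a, hx']; rfl
    have k2 : ∃ᶠ a in Gen K P, rk (res (LinearMap.ker m).subtype (Φ a)) + 2 ≤ ρ := by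
      refine hc'.mono ?_
      rintro a ⟨u, hu⟩
      have k3 : m u = 0 := k1 u.2
      subst hu
      exact (drop_two (hs a) hm k3).trans (hle a)
    obtain ⟨a0, k3⟩ := k2.exists
    refine hprim m hm fun a => ?_
    have := le_of_freq (res (LinearMap.ker m).subtype ∘ₗ Φ) (ρ - 2)
      (k2.mono fun a ha => Nat.le_sub_of_add_le ha) a
    exact Nat.add_le_of_le_sub (by omega) this
  have hPX : Prim X e := ⟨hXle, hXgen, hXker, hXim⟩
  have he : 1 ≤ e := by
    by_contra k
    have := hnc U ⊥ fun a u hu => by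
      have k1 : LinearMap.range (X a) = ⊥ := by
        rw [← Submodule.finrank_eq_zero]; have := hXle a; unfold rk at this; omega
      rw [← k1]; exact ⟨⟨u, hu⟩, rfl⟩
    rw [finrank_bot] at this
    omega
  have hQ0 : finrank K (LinearMap.ker X) ≤ finrank K (LinearMap.ker Φ) + (r + 1).choose 2 := by
    refine le_trans (Submodule.finrank_mono (t := kil Φ U) fun a ha u hu => ?_) (hs.kil_le U r hr)
    have : X a = 0 := ha
    rw [← Xa a ⟨u, hu⟩, this]; rfl
  refine ⟨r, e, hre, ?_⟩
  by_cases hY0 : Y = 0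
  · left
    obtain ⟨k1, k2⟩ := hPX.sq_bound he
    refine ⟨k1, ?_, by omega⟩
    by_contra k3
    have k4 : ∀ a, LinearMap.range (X a) ≤ U.dualAnnihilator := by
      rintro a _ ⟨u, rfl⟩
      rw [Submodule.mem_dualAnnihilator]
      intro w hw
      rw [Xa, ← Ya a u ⟨w, hw⟩, hY0]; rfl
    have k5 := Subspace.finrank_add_finrank_dualAnnihilator_eq U
    obtain ⟨x, a0, -, -, -, k6, -⟩ := hPX.first he
    obtain ⟨a, k7, k8⟩ := (hXgen.and (hXim _ k6)).exists
    apply k8
    rw [Submodule.eq_of_le_of_finrank_le (k4 a) (by unfold rk at k7; omega)]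
    exact k4 a0 ⟨x, rfl⟩
  right
  obtain ⟨f, hYle, hYgen⟩ := exists_max_rk Y
  have hXY : ∀ a, LinearMap.ker (X a) ≤ LinearMap.ker (Y a) := fun a u hu => by
    have : X a u = 0 := hu
    ext v; rw [Ya, ← Xa, this]; rfl
  have hPY : Prim Y f := hsY.prim hYle hYgen fun W hW => by
    filter_upwards [hXker W hW] with a k1 k2 using k1 ((hXY a).trans k2)
  have hf : 1 ≤ f := by
    by_contra k
    apply hY0
    ext1 a
    have := hYle a
    rw [LinearMap.zero_apply, ← LinearMap.range_eq_bot, ← Submodule.finrank_eq_zero]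
    unfold rk at this; omega
  have hfe : f ≤ e := by
    obtain ⟨a, k1⟩ := hYgen.exists
    have k2 := Submodule.finrank_mono (hXY a)
    have k3 := rk_add_ker (X a)
    have k4 := rk_add_ker (Y a)
    have := hXle a
    omega
  have hmid : finrank K (LinearMap.ker Y) ≤ finrank K (LinearMap.ker X) + r * (e - 2) := by
    set Ψ : P →ₗ[K] V →ₗ[K] Dual K U := LinearMap.llcomp K V _ _ U.subtype.dualMap ∘ₗ Φ with hΨ
    have Ψa : ∀ a v u, Ψ a v u = Φ a v u := fun _ _ _ => rfl
    have k0 : LinearMap.ker Y.flip ≠ ⊤ := by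
      intro k
      apply hY0
      ext a u v
      have : Y.flip u = 0 := (show u ∈ LinearMap.ker Y.flip from k ▸ mem_top)
      have := congrArg (fun g => g a v) this
      exact this
    have := chain_top Ψ (LinearMap.ker Y) (fun _ => e - 2) (fun H hH => by
      obtain ⟨m, hm, hHm⟩ := Submodule.exists_le_ker_of_lt_top H (lt_top_iff_ne_top.2 hH)
      obtain ⟨b, ⟨b1, b2⟩, b3⟩ := ((hXgen.and (hXim m hm)).and (hXker _ k0)).exists
      obtain ⟨x, x1, x2⟩ := SetLike.not_le_iff_exists.1 b3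
      obtain ⟨a, ha⟩ : ∃ a, Y a x ≠ 0 := by
        by_contra k; push Not at k; exact x2 (LinearMap.ext k)
      have k1 := hPY.two_le ha
      obtain ⟨y, y1, y2⟩ : ∃ y, (X b).flip y = 0 ∧ m y ≠ 0 := by
        by_contra k
        push Not at k
        apply b2
        have k2 := LinearMap.dualAnnihilator_ker_eq_range_flip (B := (X b).flip)
        rw [LinearMap.flip_flip] at k2
        rw [← k2, Submodule.mem_dualAnnihilator]
        exact k
      refine ⟨y, fun k => y2 (hHm k), ?_⟩
      have k2 := lam_bound X U.subtype.dualMap hXle b1 x1 (y := y)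
        (fun u => congrArg (fun g => g u) y1) (LinearMap.ker Y)
        (fun a ha => by
          have : Y a = 0 := ha
          exact (show U.subtype.dualMap (X a x) = Y a x from rfl).trans (by rw [this]; rfl))
        (Ψ.flip y) (fun a u => hs a y u)
      have k3 : U.subtype.dualMap ∘ₗ X.flip x = Y.flip x := rfl
      rw [k3] at k2
      have k4 := Submodule.finrank_mono
        (Submodule.map_mono (f := Ψ.flip y) (inf_le_left : LinearMap.ker Y ⊓ kil Ψ H ≤ _))
      omega) r U hr
    have k5 : LinearMap.ker Y ⊓ kil Ψ U = LinearMap.ker Y := inf_eq_left.2 fun a ha u hu => by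
      have : Y a = 0 := ha
      ext v; rw [Ψa, ← Ya a ⟨u, hu⟩ v, this]; rfl
    have k6 : LinearMap.ker Ψ ≤ LinearMap.ker X := fun a ha => by
      have : Ψ a = 0 := ha
      ext u v; rw [Xa, hs a, ← Ψa, this]; rfl
    have k7 := Submodule.finrank_mono k6
    rw [k5] at this
    simp only [Finset.sum_const, Finset.card_range, smul_eq_mul] at this
    omega
  have hYk := Submodule.finrank_le (LinearMap.ker Y)
  have hb1 := hPY.sym_bound hsY hf
  refine ⟨f, finrank K P - finrank K (LinearMap.ker Y), hf, hfe, by omega, by omega, ?_, ?_, ?_⟩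
  · rintro rfl
    have k1 : LinearMap.ker Y ≤ LinearMap.ker X := by
      intro a ha
      have ha' : Y a = 0 := ha
      by_contra k
      have k2 : LinearMap.ker (X a) ≠ ⊤ := fun k2 => k (LinearMap.ker_eq_top.1 k2)
      obtain ⟨b, b1, b2⟩ := (hYgen.and (hXker _ k2)).exists
      have k3 : LinearMap.ker (X (b + a)) = LinearMap.ker (Y b) := by
        have k4 := hXY (b + a)
        rw [map_add Y, ha', add_zero] at k4
        refine Submodule.eq_of_le_of_finrank_le k4 ?_
        have k5 := rk_add_ker (X (b + a))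
        have k6 := rk_add_ker (Y b)
        have := hXle (b + a)
        omega
      refine b2 fun u hu => ?_
      have k4 : u ∈ LinearMap.ker (X (b + a)) := k3 ▸ hXY b hu
      have hu' : X b u = 0 := hu
      simpa [hu'] using k4
    have := Submodule.finrank_mono k1
    omega
  · intro h2
    obtain ⟨a, ha⟩ := hYgen.exists
    rw [← ha]
    refine even_rk _ U (Y a) rfl (hsY a) fun u => ?_
    let W : Submodule K U :=
      { carrier := {u | Y a u u = 0}
        add_mem' := fun {u v} hu hv => by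
          have hu' : Y a u u = 0 := hu
          have hv' : Y a v v = 0 := hv
          show Y a (u + v) (u + v) = 0
          simp only [map_add, LinearMap.add_apply, hu', hv', hsY a v u]
          linear_combination (Y a u v) * h2
        zero_mem' := by simp
        smul_mem' := fun c u hu => by
          have hu' : Y a u u = 0 := hu
          show Y a (c • u) (c • u) = 0
          simp [hu'] }
    have k1 : W = ⊤ := by
      by_contra k
      obtain ⟨b, b1, b2⟩ := (hYgen.and (hPY.ker W k)).exists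
      exact b2 fun u hu => hsY.iso1 hYle b1 a hu hu
    exact (show u ∈ W from k1 ▸ mem_top)
  · intro h2
    obtain ⟨k1, k2⟩ := hPY.sym_bound' hsY hf h2
    refine ⟨k1, by omega, ?_⟩
    rintro rfl
    have k3 : U = ⊤ := Submodule.eq_top_of_finrank_eq (by omega)
    exact (hs.prim hle hgen fun W hW => hU2 W (by rw [k3]; exact fun k => hW (top_le_iff.1 k))).four
      hs h2

end Pool.Agent.P.MP_860ca8_ag
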