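import Mathlib

/-! Definitions for the statement on non-compression points. -/

namespace Pool.Agent.P.MP_860ca8_ag

open Module

/-- `Q` is an `s`-compression space (for the parameters `n`, `r`): there are subspaces `U`, `W`
of `K^n` with `dim U = s + 1 + n - r`, `dim W = s` and `A U ⊆ W` for all `A ∈ Q`. -/
def IsCompression {K : Type*} [Field K] {n : ℕ} (r s : ℕ)
    (Q : Submodule K (Matrix (Fin n) (Fin n) K)) : Prop :=
  ∃ U W : Submodule K (Fin n → K), finrank K U = s + 1 + n - r ∧ finrank K W = s ∧
    ∀ A ∈ Q, ∀ u ∈ U, A.mulVec u ∈ W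

/-- the `k` for which `F_k(SD^r_n)` has a non-compression point: a `(k+1)`-dimensional space of
symmetric `n × n` matrices of rank `< r` that is an `s`-compression space for no `s ≤ r - 1`. -/
def nonCompressionDims (K : Type*) [Field K] (n r : ℕ) : Set ℕ :=
  {k | ∃ Q : Submodule K (Matrix (Fin n) (Fin n) K), finrank K Q = k + 1 ∧
    (∀ A ∈ Q, A.IsSymm ∧ A.rank < r) ∧ ¬ ∃ s ≤ r - 1, IsCompression r s Q}

/-- smallest size of a core block in characteristic `p` -/
def minCore (p : ℕ) : ℕ := if p = 2 then 3 else 5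

/-- dimension of the core block of size `m` in characteristic `p` -/
def core (p m : ℕ) : ℕ :=
  if p = 2 then (if Odd m then m.choose 2 else (m - 1).choose 2 + 1)
  else (if m = 5 then 3 else (m - 2).choose 2 + 3)

/-- the larger of `core p r` and `s (n - s) + C(s+1, 2) + core p (r - 2 s)` for
`s = ⌊(r - minCore p) / 2⌋` -/
def topDim (p n r : ℕ) : ℕ :=
  let s := (r - minCore p) / 2
  max (core p r) (s * (n - s) + (s + 1).choose 2 + core p (r - 2 * s))

end Pool.Agent.P.MP_860ca8_ag
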