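import Pool.Agent.P.MP_860ca8_ag.Base

/-! Translation to matrices. -/

namespace Pool.Agent.P.MP_860ca8_ag

open Module Submodule Filter

theorem c2 (x : ℕ) : 2 * x.choose 2 + x = x * x := by
  rcases x with _ | x
  · simp
  · rw [two_mul_choose]; ring

theorem conv_ineq (s j c w : ℕ) (hs : 1 ≤ s) (hj : 1 ≤ j) :
    s * (j + w) + (s + 1).choose 2 + (2 * j + c).choose 2 ≤ (2 * s + 2 * j + c).choose 2 ∨
    s * (j + w) + (s + 1).choose 2 + (2 * j + c).choose 2 + 3 ≤
      (s + j) * w + (s + j + 1).choose 2 + c.choose 2 := by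
  have e1 := c2 (s + 1)
  have e2 := c2 (2 * j + c)
  have e3 := c2 (2 * s + 2 * j + c)
  have e4 := c2 (s + j + 1)
  have e5 := c2 c
  by_cases h : 2 * w + 3 ≤ 3 * s + 6 * j + 4 * c
  · left; nlinarith [Nat.mul_le_mul_left s h]
  · right
    push Not at h
    obtain ⟨s, rfl⟩ : ∃ s', s = s' + 1 := ⟨s - 1, by omega⟩
    obtain ⟨j, rfl⟩ : ∃ j', j = j' + 1 := ⟨j - 1, by omega⟩
    nlinarith [Nat.mul_le_mul_left (j + 1) (Nat.succ_le_of_lt h)]

theorem le_topDim (p n r s : ℕ) (hn : r ≤ n) (hs : 2 * s + minCore p ≤ r) :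
    s * (n - s) + (s + 1).choose 2 + core p (r - 2 * s) ≤ topDim p n r := by
  unfold topDim
  obtain ⟨j, hj⟩ : ∃ j, (r - minCore p) / 2 = s + j := ⟨(r - minCore p) / 2 - s, by omega⟩
  simp only [hj]
  rcases Nat.eq_zero_or_pos s with rfl | h1
  · simp
  rcases Nat.eq_zero_or_pos j with rfl | h2
  · simp
  obtain ⟨w, rfl⟩ : ∃ w, n = s + j + w := ⟨n - s - j, by omega⟩
  rw [show s + j + w - s = j + w by omega, show s + j + w - (s + j) = w by omega, le_max_iff]
  unfold minCore at hj hs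
  unfold core
  by_cases hp : p = 2
  · simp only [hp, if_true, Nat.odd_iff] at hj hs ⊢
    rcases (show r = 2 * s + 2 * j + 3 ∨ r = 2 * s + 2 * j + 4 by omega) with rfl | rfl
    · rw [if_pos (by omega), if_pos (by omega), if_pos (by omega),
        show 2 * s + 2 * j + 3 - 2 * s = 2 * j + 3 by omega,
        show 2 * s + 2 * j + 3 - 2 * (s + j) = 3 by omega]
      have := conv_ineq s j 3 w h1 h2
      omega
    · rw [if_neg (by omega), if_neg (by omega), if_neg (by omega),
        show 2 * s + 2 * j + 4 - 2 * s - 1 = 2 * j + 3 by omega,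
        show 2 * s + 2 * j + 4 - 2 * (s + j) - 1 = 3 by omega,
        show 2 * s + 2 * j + 4 - 1 = 2 * s + 2 * j + 3 by omega]
      have := conv_ineq s j 3 w h1 h2
      omega
  · simp only [hp, if_false] at hj hs ⊢
    rcases (show r = 2 * s + 2 * j + 5 ∨ r = 2 * s + 2 * j + 6 by omega) with rfl | rfl
    · rw [if_neg (by omega), if_neg (by omega), if_pos (by omega),
        show 2 * s + 2 * j + 5 - 2 * s - 2 = 2 * j + 3 by omega,
        show 2 * s + 2 * j + 5 - 2 = 2 * s + 2 * j + 3 by omega]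
      have := conv_ineq s j 3 w h1 h2
      have e : Nat.choose 3 2 = 3 := rfl
      omega
    · rw [if_neg (by omega), if_neg (by omega), if_neg (by omega),
        show 2 * s + 2 * j + 6 - 2 * s - 2 = 2 * j + 4 by omega,
        show 2 * s + 2 * j + 6 - 2 * (s + j) - 2 = 4 by omega,
        show 2 * s + 2 * j + 6 - 2 = 2 * s + 2 * j + 4 by omega]
      have := conv_ineq s j 4 w h1 h2
      omega

variable {K : Type*} [Field K]

theorem good_topDim (n ρ : ℕ) (h : minCore (ringChar K) ≤ ρ + 1) (hn : ρ < n) :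
    Good K (Fin n → K) ρ (topDim (ringChar K) n (ρ + 1)) := by
  unfold topDim
  set s := (ρ + 1 - minCore (ringChar K)) / 2 with hs
  have h3 : 3 ≤ minCore (ringChar K) := by unfold minCore; split_ifs <;> omega
  rcases max_choice (core (ringChar K) (ρ + 1))
    (s * (n - s) + (s + 1).choose 2 + core (ringChar K) (ρ + 1 - 2 * s)) with e | e
  · simp only [e]; exact good_core n ρ h hn
  · simp only [e]
    have := lower (K := K) (ρ - 2 * s) (by omega) s n (by omega)
    rwa [show ρ - 2 * s + 2 * s = ρ by omega, show ρ - 2 * s + 1 = ρ + 1 - 2 * s by omega] at this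

theorem three_le_topDim (p n r : ℕ) (h : minCore p ≤ r) : 3 ≤ topDim p n r := by
  refine le_trans ?_ ((core_mono p le_rfl h).trans (le_max_left _ _))
  unfold core minCore
  by_cases hp : p = 2
  · simp only [hp, if_true]; decide
  · simp only [hp, if_false, if_true]; decide

variable (K) in
/-- a matrix as a map to the dual space -/
noncomputable def toForm (n : ℕ) :
    Matrix (Fin n) (Fin n) K ≃ₗ[K] ((Fin n → K) →ₗ[K] Dual K (Fin n → K)) :=
  Matrix.toLin'.trans (LinearEquiv.congrRight (dotProductEquiv K (Fin n)))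

theorem toForm_apply {n : ℕ} (A : Matrix (Fin n) (Fin n) K) (u : Fin n → K) :
    toForm K n A u = dotProductEquiv K (Fin n) (A.mulVec u) := rfl

theorem rk_toForm {n : ℕ} (A : Matrix (Fin n) (Fin n) K) : rk (toForm K n A) = A.rank := by
  have : toForm K n A = (dotProductEquiv K (Fin n)).toLinearMap ∘ₗ A.mulVecLin := rfl
  unfold rk
  rw [this, LinearMap.range_comp, LinearEquiv.finrank_map_eq]
  rfl

theorem isSymm_iff {n : ℕ} (A : Matrix (Fin n) (Fin n) K) :
    A.IsSymm ↔ ∀ x y, toForm K n A x y = toForm K n A y x := by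
  have e : ∀ x y, toForm K n A x y = A.mulVec x ⬝ᵥ y := fun _ _ => rfl
  simp only [e]
  constructor
  · intro h x y
    rw [dotProduct_comm, Matrix.dotProduct_mulVec, ← Matrix.mulVec_transpose, h.eq]
  · intro h
    ext i j
    simpa using h (Pi.single i 1) (Pi.single j 1)

theorem exists_le_finrank {V : Type*} [AddCommGroup V] [Module K V] [FiniteDimensional K V]
    (U : Submodule K V) {d : ℕ} (h : d ≤ finrank K U) : ∃ U' ≤ U, finrank K U' = d := by
  obtain ⟨i, hi⟩ := (finrank_le_iff_exists_linearMap (R := K) (M := Fin d → K) (M' := U)).1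
    (by simpa using h)
  refine ⟨LinearMap.range (U.subtype ∘ₗ i), ?_, ?_⟩
  · rintro _ ⟨x, rfl⟩; exact (i x).2
  · have : Function.Injective (U.subtype ∘ₗ i) := U.injective_subtype.comp hi
    rw [LinearMap.finrank_range_of_inj this, finrank_fin_fun]

theorem not_compression_iff {n ρ : ℕ} (hn : ρ < n) (Q : Submodule K (Matrix (Fin n) (Fin n) K)) :
    (¬ ∃ s ≤ ρ + 1 - 1, IsCompression (ρ + 1) s Q) ↔
      ∀ (U : Submodule K (Fin n → K)) (W : Submodule K (Dual K (Fin n → K))),
        (∀ A ∈ Q, ∀ u ∈ U, toForm K n A u ∈ W) → finrank K U + ρ < finrank K W + n := by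
  constructor
  · intro h U W hUW
    by_contra hc
    have hU : finrank K U ≤ n := by simpa using Submodule.finrank_le U
    obtain ⟨U', h1, h2⟩ := exists_le_finrank U (d := finrank K W + 1 + n - (ρ + 1)) (by omega)
    refine h ⟨finrank K W, by omega, U', W.map (dotProductEquiv K (Fin n)).symm.toLinearMap, h2,
      LinearEquiv.finrank_map_eq _ _, fun A hA u hu => ⟨_, hUW A hA u (h1 hu), ?_⟩⟩
    rw [toForm_apply]; exact LinearEquiv.symm_apply_apply _ _
  · rintro h ⟨s, hs, U, W, h1, h2, h3⟩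
    have := h U (W.map (dotProductEquiv K (Fin n)).toLinearMap)
      fun A hA u hu => ⟨_, h3 A hA u hu, rfl⟩
    rw [LinearEquiv.finrank_map_eq] at this
    omega

theorem upper_matrix [Infinite K] {n ρ k : ℕ} (hn : ρ < n)
    (hk : k ∈ nonCompressionDims K n (ρ + 1)) :
    minCore (ringChar K) ≤ ρ + 1 ∧ k + 1 ≤ topDim (ringChar K) n (ρ + 1) := by
  obtain ⟨Q, h1, h2, h3⟩ := hk
  rw [not_compression_iff hn] at h3
  let Φ : Q →ₗ[K] (Fin n → K) →ₗ[K] Dual K (Fin n → K) := (toForm K n).toLinearMap ∘ₗ Q.subtype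
  have Φa : ∀ a, Φ a = toForm K n a := fun _ => rfl
  have hi : Function.Injective Φ := (toForm K n).injective.comp Q.injective_subtype
  clear_value Φ
  have hs : Sym Φ := fun a => by rw [Φa]; exact (isSymm_iff _).1 (h2 a a.2).1
  have hr : ∀ a, rk (Φ a) ≤ ρ := fun a => by
    rw [Φa, rk_toForm]; exact Nat.lt_succ_iff.1 (h2 a a.2).2
  have hc : NC Φ ρ := fun U W h => by
    rw [finrank_fin_fun]
    exact h3 U W fun A hA u hu => by have := h ⟨A, hA⟩ u hu; rwa [Φa] at this
  obtain ⟨s, k1, k2⟩ := upper n (Fin n → K) Φ ρ (finrank_fin_fun K) hs hr hc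
  have hk : LinearMap.ker Φ = ⊥ := LinearMap.ker_eq_bot_of_injective hi
  have hk' : finrank K (LinearMap.ker Φ) = 0 := by rw [hk, finrank_bot]
  have k2 : k + 1 + s.choose 2 ≤ s * n + core (ringChar K) (ρ + 1 - 2 * s) := by
    rw [← h1, ← zero_add (s * n), ← hk']; exact k2
  refine ⟨by omega, le_trans ?_ (le_topDim _ n (ρ + 1) s hn k1)⟩
  obtain ⟨w, rfl⟩ : ∃ w, n = s + w := ⟨n - s, by omega⟩
  have e1 := c2 s
  have e2 := c2 (s + 1)
  rw [Nat.add_sub_cancel_left]
  nlinarith

theorem lower_matrix {n ρ d : ℕ} (hn : ρ < n) (h : Good K (Fin n → K) ρ (d + 1)) :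
    ∃ k, d ≤ k ∧ k ∈ nonCompressionDims K n (ρ + 1) := by
  obtain ⟨N, Φ, h1, h2, h3, h4, h5⟩ := h
  refine ⟨N - 1, by omega, LinearMap.range ((toForm K n).symm.toLinearMap ∘ₗ Φ), ?_, ?_, ?_⟩
  · have : Function.Injective ((toForm K n).symm.toLinearMap ∘ₗ Φ) :=
      (toForm K n).symm.injective.comp h2
    rw [LinearMap.finrank_range_of_inj this, finrank_fin_fun]
    omega
  · rintro _ ⟨a, rfl⟩
    rw [isSymm_iff, ← rk_toForm]
    simp only [LinearMap.comp_apply, LinearEquiv.coe_coe, LinearEquiv.apply_symm_apply]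
    exact ⟨h3 a, Nat.lt_succ_of_le (h4 a)⟩
  · rw [not_compression_iff hn]
    intro U W hUW
    simpa using h5 U W fun a u hu => by simpa using hUW _ ⟨a, rfl⟩ u hu

end Pool.Agent.P.MP_860ca8_ag
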