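import Pool.Agent.P.MP_860ca8_ag.Sym

/-! Primitive symmetric spaces of rank four have dimension at most three. -/

namespace Pool.Agent.P.MP_860ca8_ag

open Module Submodule Filter

variable {K : Type*} [Field K]
variable {P : Type*} [AddCommGroup P] [Module K P]
variable {V : Type*} [AddCommGroup V] [Module K V]

theorem three_hyp (q : V →ₗ[K] Dual K V) (hq : ∀ x y, q x y = q y x) (M : Submodule K V)
    (β γ : V →ₗ[K] K) {s t : K} (hs : s ≠ 0) (ht : t ≠ 0) (hst : s ≠ t)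
    (h0 : ∀ v ∈ M, β v = 0 → q v v = 0) (h1 : ∀ v ∈ M, β v + s * γ v = 0 → q v v = 0)
    (h2 : ∀ v ∈ M, β v + t * γ v = 0 → q v v = 0) {v0 : V} (hv0 : v0 ∈ M) (hβ : β v0 = 0)
    (hγ : γ v0 ≠ 0) (v : V) (hv : v ∈ M) : q v v = 0 := by
  obtain ⟨v1, v2, m1, m2, rfl, e1, e2⟩ : ∃ v1 v2, v1 ∈ M ∧ v2 ∈ M ∧ v = v1 + v2 ∧ β v1 = 0 ∧
      β v2 + s * γ v2 = 0 := by
    refine ⟨((β v + s * γ v) / (s * γ v0)) • v0, v - ((β v + s * γ v) / (s * γ v0)) • v0,
      M.smul_mem _ hv0, M.sub_mem hv (M.smul_mem _ hv0), by abel, by simp [hβ], ?_⟩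
    simp only [map_sub, map_smul, hβ, smul_eq_mul]
    field_simp
    ring
  by_cases k1 : β v2 + t * γ v2 = 0
  · have : (s - t) * γ v2 = 0 := by linear_combination e2 - k1
    have k2 := (mul_eq_zero.1 this).resolve_left (sub_ne_zero.2 hst)
    refine h0 _ hv ?_
    rw [map_add, e1]; linear_combination e2 - s * k2
  by_cases k2 : γ v1 = 0
  · refine h1 _ hv ?_
    rw [map_add, map_add, e1, k2]; linear_combination e2
  have q1 := h0 v1 m1 e1
  have q2 := h1 v2 m2 e2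
  have q3 := h2 ((β v2 + t * γ v2) • v1 - (t * γ v1) • v2)
    (M.sub_mem (M.smul_mem _ m1) (M.smul_mem _ m2))
    (by simp only [map_sub, map_smul, e1, smul_eq_mul]; ring)
  simp only [map_sub, map_smul, LinearMap.sub_apply, LinearMap.smul_apply, smul_eq_mul, q1, q2,
    hq v2 v1] at q3
  have q4 : ((β v2 + t * γ v2) * (t * γ v1)) * (2 * q v1 v2) = 0 := by linear_combination -q3
  have q5 := (mul_eq_zero.1 q4).resolve_left (mul_ne_zero k1 (mul_ne_zero ht k2))
  simp only [map_add, LinearMap.add_apply, q1, q2, hq v2 v1]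
  linear_combination q5

theorem pair_span {L : Submodule K V} [FiniteDimensional K V] (hL : finrank K L = 2) {l1 l2 : V}
    (m1 : l1 ∈ L) (m2 : l2 ∈ L) (h1 : l1 ≠ 0) (h2 : l2 ∉ span K {l1}) {l : V} (hl : l ∈ L) :
    ∃ α β : K, l = α • l1 + β • l2 := by
  have e : span K {l1} ⊔ span K {l2} = L := by
    refine Submodule.eq_of_le_of_finrank_le (sup_le ?_ ?_) ?_
    · exact (span_singleton_le_iff_mem _ _).2 m1
    · exact (span_singleton_le_iff_mem _ _).2 m2
    · rw [Submodule.finrank_sup_span_singleton h2, finrank_span_singleton h1, hL]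
  rw [← e] at hl
  obtain ⟨u, hu, v, hv, rfl⟩ := mem_sup.1 hl
  obtain ⟨α, rfl⟩ := mem_span_singleton.1 hu
  obtain ⟨β, rfl⟩ := mem_span_singleton.1 hv
  exact ⟨α, β, rfl⟩

variable [FiniteDimensional K V] [Infinite K] {Φ : P →ₗ[K] V →ₗ[K] Dual K V}

theorem Sym.iso3 {f : ℕ} (hs : Sym Φ) (hle : ∀ a, rk (Φ a) ≤ f) {b : P} (hb : rk (Φ b) = f)
    {x v : V} (hx : Φ b x = 0) {a : P} (hv : Φ b v ∈ span K {Φ a x}) : Φ a v v = 0 := by
  obtain ⟨c, hc⟩ := mem_span_singleton.1 hv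
  by_cases h0 : c = 0
  · subst h0
    have : Φ b v = 0 := by rw [← hc, zero_smul]
    exact hs.iso1 hle hb a this this
  have e1 : Φ b (c⁻¹ • v) = Φ a x := by rw [map_smul, ← hc, smul_smul, inv_mul_cancel₀ h0, one_smul]
  obtain ⟨v2, e2⟩ := fa2 Φ hle hb a hx e1
  have e3 := (mem_range_sym (hs b)).1 (fa3 Φ hle hb a hx e1 e2) x hx
  rw [hs a, ← e1, hs b, e2] at e3
  simpa [h0] using e3

/-- a form of the family with image in a plane vanishes -/
theorem Prim.plane {f : ℕ} (h : Prim Φ f) (hs : Sym Φ) (h2 : (2 : K) ≠ 0)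
    {L : Submodule K (Dual K V)} (hL : finrank K L = 2) {c : P} (hc : ∀ v, Φ c v ∈ L) :
    Φ c = 0 := by
  by_contra h0
  have key : ∀ W0 W1 : Submodule K V, W0 ≠ ⊤ → W1 ≠ ⊤ → ∃ y, y ∉ W0 ∧ y ∉ W1 ∧ Φ c y y = 0 := by
    intro W0 W1 k0 k1
    obtain ⟨b, ⟨b0, b1⟩, b2⟩ := (((h.ker _ k0).and (h.ker _ k1)).and h.gen).exists
    obtain ⟨y, hy, y0, y1⟩ := exists_notMem_two b0 b1
    exact ⟨y, y0, y1, hs.iso1 h.le b2 c hy hy⟩
  have w0 : LinearMap.ker (Φ c) ≠ ⊤ := by simpa using h0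
  obtain ⟨y0, k0, -, q0⟩ := key _ _ w0 w0
  have w1 : LinearMap.ker (Φ c y0) ≠ ⊤ := by simpa using k0
  obtain ⟨y1, k1, -, q1⟩ := key _ _ w1 w1
  rw [LinearMap.mem_ker] at k0 k1
  have w2 : LinearMap.ker (Φ c y1) ≠ ⊤ := by
    intro ht
    apply k1
    rw [hs c]
    exact (show y0 ∈ LinearMap.ker (Φ c y1) from ht ▸ mem_top)
  obtain ⟨y, k2, k3, q⟩ := key _ _ w1 w2
  rw [LinearMap.mem_ker] at k2 k3
  obtain ⟨α, β, e⟩ := pair_span hL (hc y0) (hc y1) k0 (by
    intro hh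
    obtain ⟨d, hd⟩ := mem_span_singleton.1 hh
    apply k1
    rw [hs c, ← hd]; simp [q0]) (hc y)
  have e0 := congrArg (fun m => m y0) e
  have e1 := congrArg (fun m => m y1) e
  have e2 := congrArg (fun m => m y) e
  simp only [LinearMap.add_apply, LinearMap.smul_apply, smul_eq_mul, q0, q1, q, hs c y1 y0,
    hs c y y0, hs c y y1] at e0 e1 e2
  have : 2 * (Φ c y0 y * Φ c y1 y) = 0 := by
    linear_combination (Φ c y1 y) * e0 + (Φ c y0 y) * e1 - (Φ c y0 y1) * e2
  exact mul_ne_zero h2 (mul_ne_zero k2 k3) this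

theorem Prim.four [FiniteDimensional K P] (h : Prim Φ 4) (hs : Sym Φ) (h2 : (2 : K) ≠ 0) :
    finrank K P ≤ finrank K (LinearMap.ker Φ) + 3 := by
  obtain ⟨x, a0, b, hb, hx, hx0, -⟩ := h.first (by norm_num)
  set L := LinearMap.range (Φ.flip x) with hLdef
  have hL : finrank K L = 2 := by
    have k1 := h.two_le hx0
    have k2 := hs.half h.le hb h2 hx
    rw [← hLdef] at k1 k2
    omega
  have mL : ∀ a, Φ a x ∈ L := fun a => ⟨a, rfl⟩
  set M := L.dualCoannihilator with hMdef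
  have hM : 2 + finrank K M = finrank K V := by
    rw [← hL]; exact Subspace.finrank_add_finrank_dualCoannihilator_eq L
  have hML : M.dualAnnihilator = L := Subspace.dualCoannihilator_dualAnnihilator_eq
  have hA : ∀ b', rk (Φ b') = 4 → Φ b' x = 0 → L.comap (Φ b') = M := by
    intro b' hb' hx'
    have hD : L ≤ LinearMap.range (Φ b') := by rintro _ ⟨a, rfl⟩; exact fa1 Φ h.le hb' a hx'
    refine Submodule.eq_of_le_of_finrank_le ?_ ?_
    · rintro z ⟨a, ha⟩
      rw [Submodule.mem_dualCoannihilator]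
      intro m hm
      obtain ⟨z', rfl⟩ := hD hm
      obtain ⟨a', ha'⟩ := hm
      exact hs.iso2 h.le hb' h2 hx' ha'.symm ha.symm
    · have k1 := finrank_comap_of_le (Φ b') L hD
      have k2 := rk_add_ker (Φ b')
      omega
  have hgood : ∀ c : P, ∀ᶠ t : K in cofinite, rk (Φ (b + t • c)) = 4 := by
    intro c
    filter_upwards [rk_semicont (Φ b) (Φ c)] with t ht
    refine le_antisymm (h.le _) ?_
    rw [map_add, map_smul, ← hb]; exact ht
  have hbM : ∀ v ∈ M, Φ b v ∈ L := fun v hv => by rw [← hA b hb hx] at hv; exact hv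
  have hB : ∀ c, Φ c x = 0 → ∀ v ∈ M, Φ c v ∈ L := by
    intro c hc v hv
    obtain ⟨t, ht, ht0⟩ := ((hgood c).and (eventually_cofinite_ne 0)).exists
    have k1 : v ∈ L.comap (Φ (b + t • c)) := by rw [hA _ ht (by simp [hx, hc])]; exact hv
    have := L.sub_mem k1 (hbM v hv)
    rw [← L.smul_mem_iff ht0]
    simpa using this
  set Q' := LinearMap.ker (res M.subtype ∘ₗ Φ) with hQ'
  have mQ : ∀ a, a ∈ Q' ↔ ∀ v ∈ M, Φ a v ∈ L := by
    intro a
    rw [← hML]
    simp only [hQ', LinearMap.mem_ker, LinearMap.ext_iff, Submodule.mem_dualAnnihilator]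
    exact ⟨fun k v hv w hw => k ⟨v, hv⟩ ⟨w, hw⟩, fun k v w => k v v.2 w w.2⟩
  obtain ⟨a1, ha1⟩ : ∃ a1, a1 ∉ Q' := by
    by_contra hc
    push Not at hc
    obtain ⟨a, k1, k2⟩ := (h.gen.and (h.ker M (by rintro k; rw [k, finrank_top] at hM; omega))).exists
    apply k2
    have k3 := finrank_map_add M (Φ a)
    have k4 : finrank K (M.map (Φ a)) ≤ 2 := by
      rw [← hL]; refine Submodule.finrank_mono ?_
      rintro _ ⟨v, hv, rfl⟩; exact (mQ a).1 (hc a) v hv
    have k5 := rk_add_ker (Φ a)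
    have k6 : M ⊓ LinearMap.ker (Φ a) = LinearMap.ker (Φ a) :=
      Submodule.eq_of_le_of_finrank_le inf_le_right (by omega)
    rw [← k6]; exact inf_le_left
  have hne : ∀ a, a ∉ Q' → Φ a x ≠ 0 := fun a ha k => ha ((mQ a).2 (hB a k))
  have hex : ∀ a, Φ a x ≠ 0 → ∃ a', Φ a' x ∉ span K {Φ a x} := by
    intro a ha
    by_contra hc
    push Not at hc
    have : finrank K L ≤ finrank K (span K {Φ a x}) :=
      Submodule.finrank_mono (by rintro _ ⟨a', rfl⟩; exact hc a')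
    rw [finrank_span_singleton ha] at this
    omega
  have hD : ∀ a, a ∉ Q' → ∀ c, Φ c x = 0 → ∀ v ∈ M, Φ b v ∈ span K {Φ a x} →
      Φ c v ∈ span K {Φ a x} := by
    intro a ha c hc v0 hv0 hbv
    obtain ⟨a', ha'⟩ := hex a (hne a ha)
    obtain ⟨φ, φ1, φ2⟩ := Submodule.exists_le_ker_of_notMem ha'
    have φ3 : φ (Φ a x) = 0 := φ2 (mem_span_singleton_self _)
    have hφ : ∀ l ∈ L, φ l = 0 → l ∈ span K {Φ a x} := by
      intro l hl k
      obtain ⟨α, β, rfl⟩ := pair_span hL (mL a) (mL a') (hne a ha) ha' hl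
      have : β = 0 := by simpa [φ3, φ1] using k
      subst this
      exact mem_span_singleton.2 ⟨α, by simp⟩
    refine hφ _ (hB c hc v0 hv0) ?_
    by_contra hγ
    have hz : ∀ t : K, rk (Φ (b + t • c)) = 4 → ∀ v ∈ M,
        (φ ∘ₗ Φ b) v + t * (φ ∘ₗ Φ c) v = 0 → Φ a v v = 0 := by
      intro t ht v hv k
      have k0 : Φ (b + t • c) x = 0 := by simp [hx, hc]
      exact hs.iso3 h.le ht k0 (hφ _ (hB _ k0 v hv) (by simpa using k))
    obtain ⟨s, hs1, hs0⟩ := ((hgood c).and (eventually_cofinite_ne 0)).exists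
    obtain ⟨t, ⟨ht1, ht0⟩, hts⟩ :=
      (((hgood c).and (eventually_cofinite_ne 0)).and (eventually_cofinite_ne s)).exists
    have hq := three_hyp (Φ a) (hs a) M (φ ∘ₗ Φ b) (φ ∘ₗ Φ c) hs0 ht0 hts.symm
      (fun v hv k => hz 0 (by simpa using hb) v hv (by simpa using k)) (hz s hs1) (hz t ht1) hv0
      (φ2 hbv) hγ
    apply ha
    rw [mQ]
    intro v hv
    rw [← hML, Submodule.mem_dualAnnihilator]
    intro w hw
    have k := hq _ (M.add_mem hv hw)
    simp only [map_add, LinearMap.add_apply, hq v hv, hq w hw, hs a w v] at k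
    have : (2 : K) * Φ a v w = 0 := by linear_combination k
    exact (mul_eq_zero.1 this).resolve_left h2
  obtain ⟨a', ha'⟩ := hex a1 (hne a1 ha1)
  obtain ⟨a2, ⟨g1, g2⟩, g3⟩ := (((gen_notMem Q' LinearMap.id (a := a1) ha1).and
    (gen_notMem_aff Q' a1 LinearMap.id (a := 0) (by simpa using ha1))).and
    (gen_notMem (span K {Φ a1 x}) (Φ.flip x) (a := a') ha')).exists
  simp only [LinearMap.id_coe, id_eq, LinearMap.flip_apply] at g1 g2 g3
  obtain ⟨v1, e1⟩ := fa1 Φ h.le hb a1 hx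
  obtain ⟨v2, e2⟩ := fa1 Φ h.le hb a2 hx
  have m1 : v1 ∈ M := by rw [← hA b hb hx]; exact ⟨a1, e1.symm⟩
  have m2 : v2 ∈ M := by rw [← hA b hb hx]; exact ⟨a2, e2.symm⟩
  have hind : ∀ α β : K, α • Φ a1 x = β • Φ a2 x → α = 0 ∧ β = 0 := by
    intro α β k
    have k1 : β = 0 := by
      by_contra k1
      apply g3
      rw [← Submodule.smul_mem_iff _ k1, ← k]
      exact Submodule.smul_mem _ _ (mem_span_singleton_self _)
    subst k1
    exact ⟨by simpa [hne a1 ha1] using k, rfl⟩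
  have hkill : ∀ c, Φ c x = 0 → Φ c v1 = 0 → Φ c = 0 := by
    intro c hc c1
    have c2 : Φ c v2 = 0 := by
      obtain ⟨l2, k2⟩ := mem_span_singleton.1
        (hD a2 g1 c hc v2 m2 (e2 ▸ mem_span_singleton_self _))
      obtain ⟨l3, k3⟩ := mem_span_singleton.1 (hD (a1 + a2) g2 c hc (v1 + v2) (M.add_mem m1 m2)
        (by rw [map_add (Φ b), e1, e2, map_add, LinearMap.add_apply]; exact mem_span_singleton_self _))
      rw [map_add, map_add, LinearMap.add_apply, c1, zero_add, ← k2] at k3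
      obtain ⟨k4, k5⟩ := hind l3 (l2 - l3) (by linear_combination (norm := module) k3)
      rw [← k2, show l2 = 0 by linear_combination k5 + k4, zero_smul]
    have cM : ∀ v ∈ M, Φ c v = 0 := by
      intro v hv
      obtain ⟨α, β, e⟩ := pair_span hL (mL a1) (mL a2) (hne a1 ha1) g3 (hbM v hv)
      have mn : v - α • v1 - β • v2 ∈ M :=
        M.sub_mem (M.sub_mem hv (M.smul_mem _ m1)) (M.smul_mem _ m2)
      have n0 : Φ b (v - α • v1 - β • v2) = 0 := by
        simp only [map_sub, map_smul, e, e1, e2]; module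
      obtain ⟨l1, k1⟩ := mem_span_singleton.1 (hD a1 ha1 c hc _ mn (n0 ▸ zero_mem _))
      obtain ⟨l2, k2⟩ := mem_span_singleton.1 (hD a2 g1 c hc _ mn (n0 ▸ zero_mem _))
      obtain ⟨k4, -⟩ := hind l1 l2 (k1.trans k2.symm)
      rw [k4, zero_smul] at k1
      simpa [c1, c2] using k1.symm
    refine h.plane hs h2 hL fun v => ?_
    rw [← hML, Submodule.mem_dualAnnihilator]
    intro w hw
    rw [hs c, cM w hw]; rfl
  have hle : kil Φ (span K {x}) ≤ LinearMap.ker Φ ⊔ span K {b} := by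
    intro c hc
    have hc' : Φ c x = 0 := hc x (mem_span_singleton_self x)
    obtain ⟨l, k⟩ := mem_span_singleton.1 (hD a1 ha1 c hc' v1 m1 (e1 ▸ mem_span_singleton_self _))
    have := hkill (c - l • b) (by simp [hc', hx]) (by simp [← k, e1])
    exact mem_sup.2 ⟨c - l • b, this, l • b, smul_mem _ _ (mem_span_singleton_self _), by abel⟩
  have k1 := finrank_eq_first Φ x
  have k2 := Submodule.finrank_mono hle
  have k3 := Submodule.finrank_add_le_finrank_add_finrank (LinearMap.ker Φ) (span K {b})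
  have k4 : finrank K (span K {b}) ≤ 1 := by simpa using finrank_span_le_card (R := K) {b}
  rw [← hLdef] at k1
  omega

end Pool.Agent.P.MP_860ca8_ag
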