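import Mathlib

/-! Generic points of a parameter space, semicontinuity of rank, Flanders–Atkinson identities. -/

namespace Pool.Agent.P.MP_860ca8_ag

open Module Submodule Filter

variable {K : Type*} [Field K]
variable {P : Type*} [AddCommGroup P] [Module K P]
variable {X Y Z : Type*} [AddCommGroup X] [Module K X] [AddCommGroup Y] [Module K Y]
  [AddCommGroup Z] [Module K Z]

/-- rank of a linear map -/
noncomputable abbrev rk (M : X →ₗ[K] Y) : ℕ := finrank K (LinearMap.range M)

theorem rk_add_ker [FiniteDimensional K X] (M : X →ₗ[K] Y) :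
    rk M + finrank K (LinearMap.ker M) = finrank K X := LinearMap.finrank_range_add_finrank_ker M

theorem finrank_map_add [FiniteDimensional K X] (S : Submodule K X) (f : X →ₗ[K] Y) :
    finrank K (S.map f) + finrank K (S ⊓ LinearMap.ker f : Submodule K X) = finrank K S := by
  have h := LinearMap.finrank_range_add_finrank_ker (f.domRestrict S)
  rw [LinearMap.range_domRestrict, LinearMap.ker_domRestrict] at h
  rw [← h]
  congr 1
  have : (S ⊓ LinearMap.ker f : Submodule K X) = ((LinearMap.ker f).comap S.subtype).map S.subtype := by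
    rw [Submodule.map_comap_subtype]
  rw [this, Submodule.finrank_map_subtype_eq]

theorem finrank_map_le_add [FiniteDimensional K X] (S : Submodule K X) (f : X →ₗ[K] Y)
    (g : X →ₗ[K] Z) : finrank K (S.map f) ≤
      finrank K ((S ⊓ LinearMap.ker g).map f) + finrank K (S.map g) := by
  have h1 := finrank_map_add S f
  have h2 := finrank_map_add S g
  have h3 := finrank_map_add (S ⊓ LinearMap.ker g) f
  have h4 : finrank K (S ⊓ LinearMap.ker g ⊓ LinearMap.ker f : Submodule K X) ≤
      finrank K (S ⊓ LinearMap.ker f : Submodule K X) :=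
    Submodule.finrank_mono (inf_le_inf_right _ inf_le_left)
  omega

theorem finrank_comap_of_le [FiniteDimensional K X] (M : X →ₗ[K] Y) (L : Submodule K Y)
    (h : L ≤ LinearMap.range M) :
    finrank K (L.comap M) = finrank K L + finrank K (LinearMap.ker M) := by
  have h1 := finrank_map_add (L.comap M) M
  rw [Submodule.map_comap_eq_of_le h, inf_eq_right.2 (LinearMap.ker_le_comap M)] at h1
  exact h1.symm

theorem rk_semicont [FiniteDimensional K X] (M M' : X →ₗ[K] Y) :
    ∀ᶠ t : K in cofinite, rk M ≤ rk (M + t • M') := by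
  obtain ⟨i, hi⟩ := M.rangeRestrict.exists_rightInverse_of_surjective M.range_rangeRestrict
  obtain ⟨j, hj⟩ := (LinearMap.range M).subtype.exists_leftInverse_of_injective
    (LinearMap.range M).ker_subtype
  set N : Module.End K (LinearMap.range M) := j ∘ₗ M' ∘ₗ i with hN
  have hfin := (Module.End.finite_hasEigenvalue N).image (fun μ => -μ⁻¹)
  refine hfin.subset ?_
  intro t ht
  by_contra hc
  apply ht
  have hinj : Function.Injective ((M + t • M') ∘ₗ i) := by
    rw [injective_iff_map_eq_zero]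
    intro v hv
    by_contra hv0
    have h1 : M (i v) = (v : Y) := by
      have := congrArg (fun f => ((f v : LinearMap.range M) : Y)) hi
      simpa using this
    have h2 : j (v : Y) = v := by
      have := congrArg (fun f => f v) hj
      simpa using this
    have h3 : v + t • N v = 0 := by
      have := congrArg j hv
      simpa [h1, h2, hN] using this
    have ht0 : t ≠ 0 := by
      rintro rfl
      exact hv0 (by simpa using h3)
    apply hc
    refine ⟨-t⁻¹, ?_, by simp⟩
    refine Module.End.hasEigenvalue_of_hasEigenvector (x := v) ⟨?_, hv0⟩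
    rw [Module.End.mem_eigenspace_iff]
    have h4 : t • N v = -v := eq_neg_of_add_eq_zero_right h3
    calc N v = t⁻¹ • (t • N v) := by rw [smul_smul, inv_mul_cancel₀ ht0, one_smul]
      _ = -t⁻¹ • v := by rw [h4, smul_neg, neg_smul]
  calc rk M = rk ((M + t • M') ∘ₗ i) := (LinearMap.finrank_range_of_inj hinj).symm
    _ ≤ rk (M + t • M') := Submodule.finrank_mono (LinearMap.range_comp_le_range _ _)

variable (K) in
/-- subsets that meet every line through one of their points in a cofinite set -/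
def LO (T : Set P) : Prop := ∀ a ∈ T, ∀ b : P, ∀ᶠ t : K in cofinite, a + t • b ∈ T

theorem LO.inter_nonempty [Infinite K] {S T : Set P} (hS : LO K S) (hT : LO K T)
    (h1 : S.Nonempty) (h2 : T.Nonempty) : (S ∩ T).Nonempty := by
  obtain ⟨a, ha⟩ := h1
  obtain ⟨b, hb⟩ := h2
  have e1 := hS a ha (b - a)
  have e2 := hT b hb (a - b)
  have hinj : Function.Injective (fun t : K => 1 - t) := sub_right_injective
  have e3 := hinj.tendsto_cofinite.eventually e2
  obtain ⟨t, ht1, ht2⟩ := (e1.and e3).exists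
  refine ⟨a + t • (b - a), ht1, ?_⟩
  have : a + t • (b - a) = b + (1 - t) • (a - b) := by module
  rw [this]; exact ht2

variable (K P) in
/-- the filter of generic parameters -/
def Gen [Infinite K] : Filter P where
  sets := {S | ∃ T, T ⊆ S ∧ T.Nonempty ∧ LO K T}
  univ_sets := ⟨Set.univ, le_rfl, ⟨0, trivial⟩, fun _ _ _ => Eventually.of_forall fun _ => trivial⟩
  sets_of_superset := fun ⟨T, h1, h2, h3⟩ h => ⟨T, h1.trans h, h2, h3⟩
  inter_sets := fun ⟨S, h1, h2, h3⟩ ⟨T, h4, h5, h6⟩ =>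
    ⟨S ∩ T, Set.inter_subset_inter h1 h4, h3.inter_nonempty h6 h2 h5,
      fun a ha b => (h3 a ha.1 b).and (h6 a ha.2 b)⟩

variable [Infinite K]

instance : (Gen K P).NeBot := ⟨fun h => by
  have : (∅ : Set P) ∈ Gen K P := by rw [h]; exact mem_bot
  obtain ⟨T, h1, ⟨a, ha⟩, -⟩ := this
  exact h1 ha⟩

theorem gen_of_LO {p : P → Prop} (h : LO K {a | p a}) {a : P} (ha : p a) :
    ∀ᶠ b in Gen K P, p b := ⟨{a | p a}, le_rfl, ⟨a, ha⟩, h⟩

/-- rank of an affine family is generically at least its value at any point -/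
theorem gen_rk_aff [FiniteDimensional K X] (M : X →ₗ[K] Y) (Ψ : P →ₗ[K] X →ₗ[K] Y) (k : ℕ)
    {a : P} (ha : k ≤ rk (M + Ψ a)) : ∀ᶠ b in Gen K P, k ≤ rk (M + Ψ b) := by
  refine gen_of_LO (p := fun b => k ≤ rk (M + Ψ b)) ?_ ha
  intro a ha b
  filter_upwards [rk_semicont (M + Ψ a) (Ψ b)] with t ht
  have : M + Ψ (a + t • b) = M + Ψ a + t • Ψ b := by rw [map_add, map_smul, add_assoc]
  show k ≤ rk (M + Ψ (a + t • b))
  rw [this]; exact le_trans ha ht

theorem gen_rk [FiniteDimensional K X] (Ψ : P →ₗ[K] X →ₗ[K] Y) (k : ℕ)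
    {a : P} (ha : k ≤ rk (Ψ a)) : ∀ᶠ b in Gen K P, k ≤ rk (Ψ b) := by
  simpa using gen_rk_aff 0 Ψ k (a := a) (by simpa using ha)

theorem gen_notMem_aff (S : Submodule K Y) (y : Y) (f : P →ₗ[K] Y) {a : P} (ha : y + f a ∉ S) :
    ∀ᶠ b in Gen K P, y + f b ∉ S := by
  refine gen_of_LO (p := fun b => y + f b ∉ S) ?_ ha
  intro a ha b
  refine Set.Subsingleton.finite ?_
  intro t ht s hs
  simp only [Set.mem_compl_iff, Set.mem_ofPred_eq, not_not, map_add, map_smul] at ht hs ha
  by_contra hne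
  have h1 : (t - s) • f b ∈ S := by
    have := S.sub_mem ht hs
    rwa [show y + (f a + t • f b) - (y + (f a + s • f b)) = (t - s) • f b by module] at this
  have h2 : f b ∈ S := (S.smul_mem_iff (sub_ne_zero.2 hne)).1 h1
  apply ha
  have := S.sub_mem ht (S.smul_mem t h2)
  rwa [show y + (f a + t • f b) - t • f b = y + f a by module] at this

theorem gen_notMem (S : Submodule K Y) (f : P →ₗ[K] Y) {a : P} (ha : f a ∉ S) :
    ∀ᶠ b in Gen K P, f b ∉ S := by
  simpa using gen_notMem_aff S 0 f (a := a) (by simpa using ha)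

/-- a family has a maximal rank, which is generic -/
theorem exists_max_rk [FiniteDimensional K X] (Ψ : P →ₗ[K] X →ₗ[K] Y) :
    ∃ e, (∀ a, rk (Ψ a) ≤ e) ∧ ∀ᶠ a in Gen K P, rk (Ψ a) = e := by
  have hb : ∀ a, rk (Ψ a) ≤ finrank K X := fun a => LinearMap.finrank_range_le _
  have hbdd : BddAbove (Set.range fun a => rk (Ψ a)) := ⟨_, by rintro _ ⟨a, rfl⟩; exact hb a⟩
  obtain ⟨a, ha⟩ := Nat.sSup_mem (Set.range_nonempty fun a => rk (Ψ a)) hbdd
  have hle : ∀ b, rk (Ψ b) ≤ rk (Ψ a) := fun b => by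
    have : rk (Ψ b) ≤ sSup (Set.range fun a => rk (Ψ a)) := le_csSup hbdd ⟨b, rfl⟩
    rw [← ha] at this; exact this
  refine ⟨rk (Ψ a), hle, ?_⟩
  filter_upwards [gen_rk Ψ _ (le_refl (rk (Ψ a)))] with b hb using le_antisymm (hle b) hb

theorem le_of_freq [FiniteDimensional K X] (Ψ : P →ₗ[K] X →ₗ[K] Y) (k : ℕ)
    (h : ∃ᶠ a in Gen K P, rk (Ψ a) ≤ k) (a : P) : rk (Ψ a) ≤ k := by
  by_contra hc
  obtain ⟨b, h1, h2⟩ := (h.and_eventually (gen_rk Ψ (k + 1) (a := a) (by omega))).exists
  omega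

omit [Infinite K] in
theorem range_aug (M : X →ₗ[K] Y) (y : Y) :
    LinearMap.range (M.coprod (LinearMap.toSpanSingleton K Y y)) =
      LinearMap.range M ⊔ span K {y} := by
  rw [LinearMap.range_coprod, LinearMap.span_singleton_eq_range]

/-- a vector in the range of `B + t E` for all `t ≠ 0` is in the range of `B` of maximal rank -/
theorem mem_range_of_line [FiniteDimensional K X] (B E : X →ₗ[K] Y)
    (hmax : ∀ t : K, rk (B + t • E) ≤ rk B) (y : Y)
    (h : ∀ t : K, t ≠ 0 → y ∈ LinearMap.range (B + t • E)) : y ∈ LinearMap.range B := by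
  have h1 := rk_semicont (B.coprod (LinearMap.toSpanSingleton K Y y)) (E.coprod 0)
  obtain ⟨t, ht, ht0⟩ := (h1.and (eventually_cofinite_ne (0 : K))).exists
  have e : B.coprod (LinearMap.toSpanSingleton K Y y) + t • E.coprod 0 =
      (B + t • E).coprod (LinearMap.toSpanSingleton K Y y) := by
    ext <;> simp
  rw [e] at ht
  unfold rk at ht
  rw [range_aug, range_aug, sup_eq_left.2 ((span_singleton_le_iff_mem _ _).2 (h t ht0))] at ht
  have h2 : LinearMap.range B = LinearMap.range B ⊔ span K {y} := by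
    have : FiniteDimensional K (LinearMap.range B ⊔ span K {y} : Submodule K Y) := by
      rw [← range_aug]; infer_instance
    exact Submodule.eq_of_le_of_finrank_le le_sup_left (ht.trans (hmax t))
  rw [h2]
  exact Submodule.mem_sup_right (mem_span_singleton_self y)

section FA
variable [FiniteDimensional K X] (Φ : P →ₗ[K] X →ₗ[K] Y) {e : ℕ} (hle : ∀ a, rk (Φ a) ≤ e)
  {b : P} (hb : rk (Φ b) = e)

/-- chain property -/
def Ch (B E : X →ₗ[K] Y) (x : X) : Prop := ∀ t : K, t ≠ 0 → E x ∈ LinearMap.range (B + t • E)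

omit [Infinite K] [FiniteDimensional K X] in
theorem Ch.zero {B E : X →ₗ[K] Y} {x : X} (hx : B x = 0) : Ch B E x := fun t ht =>
  ⟨t⁻¹ • x, by simp [hx, smul_smul, ht]⟩

omit [Infinite K] [FiniteDimensional K X] in
theorem Ch.step {B E : X →ₗ[K] Y} {x x' : X} (hx : Ch B E x) (h : B x' = E x) : Ch B E x' := by
  intro t ht
  obtain ⟨w, hw⟩ := hx t ht
  refine ⟨t⁻¹ • (x' - w), ?_⟩
  rw [map_smul, map_sub, hw]
  simp [h, smul_smul, ht]

include hle hb in
theorem Ch.mem {a : P} {x : X} (hx : Ch (Φ b) (Φ a) x) : Φ a x ∈ LinearMap.range (Φ b) := by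
  refine mem_range_of_line _ (Φ a) (fun t => ?_) _ hx
  rw [hb, ← map_smul, ← map_add]; exact hle _

include hle hb in
theorem fa1 (a : P) {x : X} (hx : Φ b x = 0) : Φ a x ∈ LinearMap.range (Φ b) :=
  Ch.mem Φ hle hb (Ch.zero hx)

include hle hb in
theorem fa2 (a : P) {x x' : X} (hx : Φ b x = 0) (h : Φ b x' = Φ a x) :
    Φ a x' ∈ LinearMap.range (Φ b) :=
  Ch.mem Φ hle hb ((Ch.zero hx).step h)

include hle hb in
theorem fa3 (a : P) {x x' x'' : X} (hx : Φ b x = 0) (h : Φ b x' = Φ a x) (h' : Φ b x'' = Φ a x') :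
    Φ a x'' ∈ LinearMap.range (Φ b) :=
  Ch.mem Φ hle hb (((Ch.zero hx).step h).step h')

include hle in
/-- if the kernels of a dense set lie in `W`, all kernels of maximal rank elements do -/
theorem ker_le_of_freq (W : Submodule K X) (h : ∃ᶠ a in Gen K P, LinearMap.ker (Φ a) ≤ W)
    {b : P} (hb : rk (Φ b) = e) : LinearMap.ker (Φ b) ≤ W := by
  let Ψ : P →ₗ[K] X →ₗ[K] Y × (X ⧸ W) := (LinearMap.llcomp K X Y _ (LinearMap.inl K Y _)) ∘ₗ Φ
  let M : X →ₗ[K] Y × (X ⧸ W) := LinearMap.inr K Y _ ∘ₗ W.mkQ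
  have hk : ∀ a, LinearMap.ker (M + Ψ a) = LinearMap.ker (Φ a) ⊓ W := by
    intro a; ext x; simp [M, Ψ, Prod.ext_iff]
  by_contra hc
  have h1 : e + 1 ≤ rk (M + Ψ b) := by
    have := rk_add_ker (M + Ψ b)
    have h2 := rk_add_ker (Φ b)
    have h3 : finrank K (LinearMap.ker (Φ b) ⊓ W : Submodule K X) <
        finrank K (LinearMap.ker (Φ b)) :=
      Submodule.finrank_lt_finrank_of_lt (inf_lt_left.2 hc)
    rw [hk] at this
    omega
  obtain ⟨a, ha, h2⟩ := (h.and_eventually (gen_rk_aff M Ψ _ h1)).exists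
  have h3 := rk_add_ker (M + Ψ a)
  have h4 := rk_add_ker (Φ a)
  rw [hk, inf_eq_left.2 ha] at h3
  have := hle a
  omega

end FA

end Pool.Agent.P.MP_860ca8_ag
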