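import Pool.Agent.P.MP_860ca8_ag.Upper

/-! Constructions that preserve non-compression. -/

namespace Pool.Agent.P.MP_860ca8_ag

open Module Submodule Filter

variable {K : Type*} [Field K]
variable {P : Type*} [AddCommGroup P] [Module K P]
variable {V V' : Type*} [AddCommGroup V] [Module K V] [AddCommGroup V'] [Module K V']

variable (K V) in
/-- there is a non-compression space of symmetric forms of rank `≤ ρ` and dimension `≥ d` -/
def Good (ρ d : ℕ) : Prop := ∃ (N : ℕ) (Φ : (Fin N → K) →ₗ[K] V →ₗ[K] Dual K V), d ≤ N ∧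
  Function.Injective Φ ∧ Sym Φ ∧ (∀ a, rk (Φ a) ≤ ρ) ∧ NC Φ ρ

theorem good_of [FiniteDimensional K P] (Φ : P →ₗ[K] V →ₗ[K] Dual K V)
    (hi : Function.Injective Φ) {ρ d : ℕ}
    (hd : d ≤ finrank K P) (hs : Sym Φ) (hr : ∀ a, rk (Φ a) ≤ ρ) (hn : NC Φ ρ) : Good K V ρ d := by
  let e : (Fin (finrank K P) → K) ≃ₗ[K] P := (Module.finBasis K P).equivFun.symm
  refine ⟨_, Φ ∘ₗ e.toLinearMap, hd, hi.comp e.injective, fun a => hs _, fun a => hr _,
    fun U W h => hn U W fun a u hu => ?_⟩
  obtain ⟨a, rfl⟩ := e.surjective a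
  exact h a u hu

theorem res_injective {π : V' →ₗ[K] V} (hπ : Function.Surjective π) :
    Function.Injective (res π) := by
  rw [injective_iff_map_eq_zero]
  intro B hB
  ext x y
  obtain ⟨x, rfl⟩ := hπ x
  obtain ⟨y, rfl⟩ := hπ y
  exact congrArg (fun g => g x y) hB

variable [FiniteDimensional K V] [FiniteDimensional K V']

omit [FiniteDimensional K V'] in
theorem finrank_comap_dual_le {π : V' →ₗ[K] V} (hπ : Function.Surjective π)
    (W : Submodule K (Dual K V')) :
    finrank K ((W.comap π.dualMap).map π.dualMap) = finrank K (W.comap π.dualMap) :=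
  finrank_map_of_disjoint (by
    rw [LinearMap.ker_eq_bot.2 (LinearMap.dualMap_injective_of_surjective hπ)]
    exact disjoint_bot_right)

omit [FiniteDimensional K V'] in
theorem rk_res_le (π : V' →ₗ[K] V) (B : V →ₗ[K] Dual K V) : rk (res π B) ≤ rk B := by
  refine le_trans (Submodule.finrank_mono (t := (LinearMap.range B).map π.dualMap) ?_)
    (Submodule.finrank_map_le _ _)
  rintro _ ⟨x, rfl⟩
  exact ⟨B (π x), ⟨_, rfl⟩, rfl⟩

theorem Good.pad {ρ d : ℕ} (h : Good K V ρ d) (hV : finrank K V ≤ finrank K V') :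
    Good K V' ρ d := by
  obtain ⟨N, Q, h1, hQ, h2, h3, h4⟩ := h
  obtain ⟨i, hi⟩ := finrank_le_iff_exists_linearMap.1 hV
  obtain ⟨π, hπ⟩ := i.exists_leftInverse_of_injective (LinearMap.ker_eq_bot.2 hi)
  have hs : Function.Surjective π := fun x => ⟨i x, congrArg (fun g => g x) hπ⟩
  refine good_of (res π ∘ₗ Q) ((res_injective hs).comp hQ) (by simpa using h1) (h2.res π)
    (fun a => (rk_res_le π _).trans (h3 a)) fun U W hUW => ?_
  have k1 := h4 (U.map π) (W.comap π.dualMap) (by
    rintro a _ ⟨u, hu, rfl⟩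
    exact hUW a u hu)
  have k2 := finrank_comap_dual_le hs W
  have k3 : finrank K ((W.comap π.dualMap).map π.dualMap) ≤ finrank K W :=
    Submodule.finrank_mono (Submodule.map_comap_le _ _)
  have k4 := finrank_map_add U π
  have k5 : finrank K (U ⊓ LinearMap.ker π : Submodule K _) ≤ finrank K (LinearMap.ker π) :=
    Submodule.finrank_mono inf_le_right
  have k6 := rk_add_ker π
  unfold rk at k6
  rw [LinearMap.range_eq_top.2 hs, finrank_top] at k6
  omega

/-- bordering a form by a row and a corner -/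
def bord : ((V →ₗ[K] Dual K V) × Dual K V × K) →ₗ[K] (V × K →ₗ[K] Dual K (V × K)) where
  toFun t := LinearMap.mk₂ K
    (fun x y => t.1 x.1 y.1 + y.2 * t.2.1 x.1 + x.2 * t.2.1 y.1 + t.2.2 * x.2 * y.2)
    (fun _ _ _ => by simp; ring) (fun _ _ _ => by simp; ring) (fun _ _ _ => by simp; ring)
    (fun _ _ _ => by simp; ring)
  map_add' _ _ := by
    refine LinearMap.ext₂ fun x y => ?_
    simp; ring
  map_smul' _ _ := by
    refine LinearMap.ext₂ fun x y => ?_
    simp; ring

omit [FiniteDimensional K V] in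
@[simp] theorem bord_apply (t : (V →ₗ[K] Dual K V) × Dual K V × K) (x y : V × K) : bord t x y =
    t.1 x.1 y.1 + y.2 * t.2.1 x.1 + x.2 * t.2.1 y.1 + t.2.2 * x.2 * y.2 := rfl

omit [FiniteDimensional K V] in
theorem bord_injective : Function.Injective (bord (K := K) (V := V)) := by
  rw [injective_iff_map_eq_zero]
  rintro ⟨B, m, c⟩ h
  have h' : ∀ x y, bord (B, m, c) x y = 0 := fun x y => by rw [h]; rfl
  refine Prod.ext ?_ (Prod.ext ?_ ?_)
  · ext x y; simpa using h' (x, 0) (y, 0)
  · ext x; simpa using h' (x, 0) (0, 1)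
  · simpa using h' (0, 1) (0, 1)

omit [FiniteDimensional K V] in
theorem snd_ne_zero : (LinearMap.snd K V K) ≠ 0 := fun h => by
  simpa using congrArg (fun g => g (0, 1)) h

theorem finrank_map_fst {U : Submodule K (V × K)} (h : ∀ u ∈ U, u.2 = 0) :
    finrank K (U.map (LinearMap.fst K V K)) = finrank K U :=
  finrank_map_of_disjoint (Submodule.disjoint_def.2 fun u hu hu' => Prod.ext hu' (h u hu))

theorem Good.free {ρ d : ℕ} (h : Good K V ρ d) (hρ : ρ + 1 < finrank K V) :
    Good K (V × K) (ρ + 2) (d + finrank K V + 1) := by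
  obtain ⟨N, Q, h1, hQ, h2, h3, h4⟩ := h
  have hV : finrank K (V × K) = finrank K V + 1 := by simp
  refine good_of (bord ∘ₗ Q.prodMap LinearMap.id)
    (bord_injective.comp (hQ.prodMap Function.injective_id)) ?_ ?_ ?_ ?_
  · simp only [finrank_prod, Subspace.dual_finrank_eq, finrank_self, finrank_fin_fun]; omega
  · intro a x y
    have : Q a.1 x.1 y.1 = Q a.1 y.1 x.1 := h2 a.1 x.1 y.1
    simp [this]; ring
  · intro a
    refine (rk_le_res LinearMap.inl_injective hV.symm _).trans ?_
    have : res (LinearMap.inl K V K) ((bord ∘ₗ Q.prodMap LinearMap.id) a) =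
      Q a.1 := by ext x y; simp
    rw [this]; exact Nat.add_le_add_right (h3 _) 2
  intro U W hUW
  have hU := Submodule.finrank_le U
  by_cases hc : ∃ u ∈ U, u.2 ≠ 0
  · obtain ⟨u, hu, hu2⟩ := hc
    have : W = ⊤ := eq_top_iff.2 fun ψ _ => by
      have k := hUW (0, u.2⁻¹ • ψ ∘ₗ LinearMap.inl K V K,
        u.2⁻¹ * (ψ (0, 1) - u.2⁻¹ * ψ (u.1, 0))) u hu
      have e : ∀ y : V × K, ψ y = ψ (y.1, 0) + y.2 * ψ (0, 1) := fun y => by
        rw [← smul_eq_mul, ← map_smul, ← map_add]; simp
      refine (congrArg (· ∈ W) (LinearMap.ext fun y => ?_)).mp k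
      rw [e y]
      simp
      field_simp
      ring
    rw [this, finrank_top, Subspace.dual_finrank_eq]
    omega
  push Not at hc
  by_cases hU0 : U = ⊥
  · rw [hU0, finrank_bot]; omega
  obtain ⟨u, hu, hu0⟩ := Submodule.exists_mem_ne_zero_of_ne_bot hU0
  obtain ⟨m, hm⟩ := Module.Projective.exists_dual_eq_one K
    (show u.1 ≠ 0 from fun k => hu0 (Prod.ext k (hc u hu)))
  have k0 : LinearMap.snd K V K ∈ W := by
    refine (congrArg (· ∈ W) (LinearMap.ext fun y => ?_)).mp (hUW (0, m, 0) u hu)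
    simp [hm, hc u hu]
  have k1 := h4 (U.map (LinearMap.fst K V K)) (W.map (LinearMap.inl K V K).dualMap) (by
    rintro a _ ⟨u, hu, rfl⟩
    refine ⟨_, hUW (a, 0, 0) u hu, ?_⟩
    ext y; simp)
  have k2 := finrank_map_add W (LinearMap.inl K V K).dualMap
  have k3 : 1 ≤ finrank K (W ⊓ LinearMap.ker (LinearMap.inl K V K).dualMap : Submodule K _) := by
    rw [Submodule.one_le_finrank_iff, Submodule.ne_bot_iff]
    exact ⟨_, ⟨k0, by ext y; simp⟩, snd_ne_zero⟩
  rw [finrank_map_fst hc] at k1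
  omega

theorem Good.corner {ρ d : ℕ} (h : Good K V ρ d) : Good K (V × K) (ρ + 1) (d + 1) := by
  obtain ⟨N, Q, h1, hQ, h2, h3, h4⟩ := h
  have hV : finrank K (V × K) = finrank K V + 1 := by simp
  have hfst : Function.Surjective (LinearMap.fst K V K) := LinearMap.fst_surjective
  refine good_of (bord ∘ₗ Q.prodMap (LinearMap.inr K _ K))
    (bord_injective.comp (hQ.prodMap LinearMap.inr_injective)) ?_ ?_ ?_ ?_
  · simp only [finrank_prod, finrank_self, finrank_fin_fun]; omega
  · intro a x y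
    have : Q a.1 x.1 y.1 = Q a.1 y.1 x.1 := h2 a.1 x.1 y.1
    simp [this]; ring
  · intro a
    have k1 : LinearMap.range ((bord ∘ₗ Q.prodMap (LinearMap.inr K _ K)) a) ≤
        LinearMap.range (res (LinearMap.fst K V K) (Q a.1)) ⊔
          span K {LinearMap.snd K V K} := by
      rintro _ ⟨x, rfl⟩
      refine mem_sup.2 ⟨_, ⟨x, rfl⟩, (a.2 * x.2) • LinearMap.snd K V K,
        smul_mem _ _ (mem_span_singleton_self _), LinearMap.ext fun y => ?_⟩
      simp
    have k2 := Submodule.finrank_mono k1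
    have k3 := Submodule.finrank_add_le_finrank_add_finrank
      (LinearMap.range (res (LinearMap.fst K V K) (Q a.1))) (span K {LinearMap.snd K V K})
    rw [finrank_span_singleton snd_ne_zero] at k3
    have k4 := rk_res_le (LinearMap.fst K V K) (Q a.1)
    have k5 := h3 a.1
    unfold rk at *
    omega
  intro U W hUW
  have k1 := h4 (U.map (LinearMap.fst K V K)) (W.comap (LinearMap.fst K V K).dualMap) (by
    rintro a _ ⟨u, hu, rfl⟩
    refine (congrArg (· ∈ W) (LinearMap.ext fun y => ?_)).mp (hUW (a, 0) u hu)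
    simp)
  have k2 := finrank_comap_dual_le hfst W
  by_cases hc : ∃ u ∈ U, u.2 ≠ 0
  · obtain ⟨u, hu, hu2⟩ := hc
    have k0 : LinearMap.snd K V K ∈ W := by
      refine (congrArg (· ∈ W) (LinearMap.ext fun y => ?_)).mp (hUW (0, u.2⁻¹) u hu)
      simp [hu2]
    have k3 : (W.comap (LinearMap.fst K V K).dualMap).map (LinearMap.fst K V K).dualMap < W := by
      refine lt_of_le_of_ne (Submodule.map_comap_le _ _) fun k => ?_
      rw [← k] at k0
      obtain ⟨m, -, hm⟩ := k0
      simpa using congrArg (fun g => g (0, 1)) hm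
    have k4 := Submodule.finrank_lt_finrank_of_lt k3
    have k5 := finrank_map_add U (LinearMap.fst K V K)
    have k6 : finrank K (U ⊓ LinearMap.ker (LinearMap.fst K V K) : Submodule K _) ≤
      finrank K (LinearMap.ker (LinearMap.fst K V K)) := Submodule.finrank_mono inf_le_right
    have k7 := rk_add_ker (LinearMap.fst K V K)
    unfold rk at k7
    rw [LinearMap.range_eq_top.2 hfst, finrank_top] at k7
    omega
  · push Not at hc
    have k3 : finrank K ((W.comap (LinearMap.fst K V K).dualMap).map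
      (LinearMap.fst K V K).dualMap) ≤ finrank K W :=
      Submodule.finrank_mono (Submodule.map_comap_le _ _)
    rw [finrank_map_fst hc] at k1
    omega

theorem le_of_blow (Φ : P →ₗ[K] V →ₗ[K] V') (a b c d : P)
    (h : ∀ u v, Φ a u + Φ b v = 0 → Φ c u + Φ d v = 0 → u = 0 ∧ v = 0) (U : Submodule K V)
    (W : Submodule K V') (hUW : ∀ a, ∀ u ∈ U, Φ a u ∈ W) : finrank K U ≤ finrank K W := by
  let f : P → U →ₗ[K] W := fun a => (Φ a).restrict (fun u hu => hUW a u hu)
  have hi : Function.Injective (((f a).coprod (f b)).prod ((f c).coprod (f d))) := by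
    rw [injective_iff_map_eq_zero]
    rintro ⟨u, v⟩ k
    obtain ⟨k1, k2⟩ := h u v (congrArg (fun z => (z.1 : V')) k) (congrArg (fun z => (z.2 : V')) k)
    exact Prod.ext (Subtype.ext k1) (Subtype.ext k2)
  have := LinearMap.finrank_le_finrank_of_injective hi
  rw [finrank_prod, finrank_prod] at this
  omega

theorem nc_of_blow (Φ : P →ₗ[K] V →ₗ[K] Dual K V) (a b c d : P)
    (h : ∀ u v, Φ a u + Φ b v = 0 → Φ c u + Φ d v = 0 → u = 0 ∧ v = 0) {ρ : ℕ}
    (hρ : ρ < finrank K V) : NC Φ ρ := fun U W hUW => by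
  have := le_of_blow Φ a b c d h U W hUW
  omega

theorem rk_le_of_ker {B : V →ₗ[K] Dual K V} {x : V} (hx : x ≠ 0) (h : B x = 0) {ρ : ℕ}
    (hρ : finrank K V ≤ ρ + 1) : rk B ≤ ρ := by
  have k1 := rk_add_ker B
  have k2 : 1 ≤ finrank K (LinearMap.ker B) := by
    rw [Submodule.one_le_finrank_iff, Submodule.ne_bot_iff]; exact ⟨x, h, hx⟩
  omega

end Pool.Agent.P.MP_860ca8_ag
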