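import Pool.Agent.P.MP_860ca8_ag.Chain

/-! Spaces of symmetric forms spanned by generic kernels. -/

namespace Pool.Agent.P.MP_860ca8_ag

open Module Submodule Filter

universe u

variable {K : Type*} [Field K]
variable {P : Type*} [AddCommGroup P] [Module K P]
variable {V H : Type*} [AddCommGroup V] [Module K V] [AddCommGroup H] [Module K H]

theorem choose_succ_two (n : ℕ) : (n + 1).choose 2 = n.choose 2 + n := by
  rw [Nat.choose_succ_succ' n 1, Nat.choose_one_right, add_comm]

theorem two_mul_choose (n : ℕ) : 2 * (n + 1).choose 2 = (n + 1) * n := by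
  induction n with
  | zero => simp
  | succ n ih => rw [choose_succ_two, mul_add, ih]; ring

theorem sum_succ_eq (j : ℕ) : ∑ l ∈ Finset.range j, (l + 1) = (j + 1).choose 2 := by
  induction j with
  | zero => simp
  | succ j ih => rw [Finset.sum_range_succ, ih, choose_succ_two (j + 1)]

/-- a family of symmetric forms -/
def Sym (Φ : P →ₗ[K] V →ₗ[K] Dual K V) : Prop := ∀ a x y, Φ a x y = Φ a y x

/-- restriction of forms along `ι` -/
def res (ι : H →ₗ[K] V) : (V →ₗ[K] Dual K V) →ₗ[K] (H →ₗ[K] Dual K H) where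
  toFun B := ι.dualMap ∘ₗ B ∘ₗ ι
  map_add' _ _ := by ext; simp
  map_smul' _ _ := by ext; simp

@[simp] theorem res_apply (ι : H →ₗ[K] V) (B : V →ₗ[K] Dual K V) (x y : H) :
    res ι B x y = B (ι x) (ι y) := rfl

theorem Sym.res {Φ : P →ₗ[K] V →ₗ[K] Dual K V} (hs : Sym Φ) (ι : H →ₗ[K] V) :
    Sym (res ι ∘ₗ Φ) := fun a x y => hs a (ι x) (ι y)

variable [FiniteDimensional K V]

theorem mem_range_sym {B : V →ₗ[K] Dual K V} (hB : ∀ x y, B x y = B y x) {m : Dual K V} :
    m ∈ LinearMap.range B ↔ ∀ x, B x = 0 → m x = 0 := by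
  have : B.flip = B := by ext x y; exact hB y x
  have h := LinearMap.dualAnnihilator_ker_eq_range_flip (B := B)
  rw [this] at h
  rw [← h, Submodule.mem_dualAnnihilator]
  rfl

theorem finrank_ker_dualMap [FiniteDimensional K H] {ι : H →ₗ[K] V} (hι : Function.Injective ι) :
    finrank K H + finrank K (LinearMap.ker ι.dualMap) = finrank K V := by
  rw [LinearMap.ker_dualMap_eq_dualAnnihilator_range, ← LinearMap.finrank_range_of_inj hι]
  exact Subspace.finrank_add_finrank_dualAnnihilator_eq _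

theorem rk_le_res [FiniteDimensional K H] {ι : H →ₗ[K] V} (hι : Function.Injective ι)
    (hH : finrank K H + 1 = finrank K V) (B : V →ₗ[K] Dual K V) : rk B ≤ rk (res ι B) + 2 := by
  have h1 := finrank_map_add (LinearMap.range ι) B
  have h2 := finrank_map_add (LinearMap.range (B ∘ₗ ι)) ι.dualMap
  have h3 := finrank_ker_dualMap hι
  have h4 := rk_add_ker B
  have h5 : finrank K (LinearMap.range ι ⊓ LinearMap.ker B : Submodule K V) ≤
    finrank K (LinearMap.ker B) := Submodule.finrank_mono inf_le_right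
  have h6 : finrank K (LinearMap.range (B ∘ₗ ι) ⊓ LinearMap.ker ι.dualMap : Submodule K _) ≤
    finrank K (LinearMap.ker ι.dualMap) := Submodule.finrank_mono inf_le_right
  rw [LinearMap.finrank_range_of_inj hι, ← LinearMap.range_comp] at h1
  rw [← LinearMap.range_comp] at h2
  have h7 : rk (res ι B) = finrank K (LinearMap.range (ι.dualMap ∘ₗ B ∘ₗ ι)) := rfl
  omega

theorem drop_two {B : V →ₗ[K] Dual K V} (hB : ∀ x y, B x y = B y x) {u : V} (hu : B u ≠ 0)
    (huu : B u u = 0) : rk (res (LinearMap.ker (B u)).subtype B) + 2 ≤ rk B := by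
  set M := LinearMap.ker (B u) with hM
  have h1 : finrank K M + 1 = finrank K V := Module.Dual.finrank_ker_add_one_of_ne_zero hu
  have h2 := rk_add_ker B
  have h3 := rk_add_ker (res M.subtype B)
  have h4 : finrank K (LinearMap.ker B ⊔ span K {u} : Submodule K V) =
    finrank K (LinearMap.ker B) + 1 := Submodule.finrank_sup_span_singleton hu
  have h5 : LinearMap.ker B ⊔ span K {u} ≤ (LinearMap.ker (res M.subtype B)).map M.subtype := by
    refine sup_le (fun x hx => ?_) ((span_singleton_le_iff_mem _ _).2 ?_)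
    · have hx' : B x = 0 := hx
      refine ⟨⟨x, by simp [hM, hB u x, hx']⟩, ?_, rfl⟩
      ext y; simp [hx']
    · refine ⟨⟨u, huu⟩, ?_, rfl⟩
      ext y; exact y.2
  have h6 := Submodule.finrank_mono h5
  rw [Submodule.finrank_map_subtype_eq] at h6
  omega

theorem even_rk (n : ℕ) : ∀ (W : Type u) [AddCommGroup W] [Module K W] [FiniteDimensional K W]
    (B : W →ₗ[K] Dual K W), finrank K W = n → (∀ x y, B x y = B y x) → (∀ x, B x x = 0) →
    Even (rk B) := by
  induction n with
  | zero =>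
    intro W _ _ _ B h _ _
    have := rk_add_ker B
    rw [show rk B = 0 by omega]; exact Even.zero
  | succ n ih =>
    intro W _ _ _ B h hB h0
    by_cases hz : B = 0
    · subst hz
      unfold rk
      rw [LinearMap.range_zero, finrank_bot]; exact Even.zero
    obtain ⟨u, hu⟩ : ∃ u, B u ≠ 0 := by
      by_contra hc; push Not at hc; exact hz (LinearMap.ext hc)
    have h1 : finrank K (LinearMap.ker (B u)) + 1 = finrank K W :=
      Module.Dual.finrank_ker_add_one_of_ne_zero hu
    have h2 := drop_two hB hu (h0 u)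
    have h3 := rk_le_res (Submodule.injective_subtype _) h1 B
    have h4 := ih (LinearMap.ker (B u)) (res (LinearMap.ker (B u)).subtype B) (by omega)
      (fun x y => hB _ _) (fun x => h0 _)
    rw [show rk B = rk (res (LinearMap.ker (B u)).subtype B) + 2 by omega]
    exact h4.add even_two

variable [Infinite K] {Φ : P →ₗ[K] V →ₗ[K] Dual K V} {f : ℕ}

theorem Sym.iso1 (hs : Sym Φ) (hle : ∀ a, rk (Φ a) ≤ f) {b : P} (hb : rk (Φ b) = f) (a : P)
    {x y : V} (hx : Φ b x = 0) (hy : Φ b y = 0) : Φ a x y = 0 :=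
  (mem_range_sym (hs b)).1 (fa1 Φ hle hb a hx) y hy

theorem Sym.iso2 (hs : Sym Φ) (hle : ∀ a, rk (Φ a) ≤ f) {b : P} (hb : rk (Φ b) = f)
    (h2 : (2 : K) ≠ 0) {x z z' : V} (hx : Φ b x = 0) {a a' : P} (hz : Φ b z = Φ a x)
    (hz' : Φ b z' = Φ a' x) : Φ b z z' = 0 := by
  have key : ∀ c w, Φ b w = Φ c x → Φ b w w = 0 := fun c w h => by
    rw [h, hs c x w]
    exact (mem_range_sym (hs b)).1 (fa2 Φ hle hb c hx h) x hx
  have k1 := key a z hz
  have k2 := key a' z' hz'
  have k3 := key (a + a') (z + z') (by simp [hz, hz'])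
  simp only [map_add, LinearMap.add_apply, k1, k2, hs b z' z] at k3
  have : (2 : K) * Φ b z z' = 0 := by linear_combination k3
  exact (mul_eq_zero.1 this).resolve_left h2

theorem Sym.half (hs : Sym Φ) (hle : ∀ a, rk (Φ a) ≤ f) {b : P} (hb : rk (Φ b) = f)
    (h2 : (2 : K) ≠ 0) {x : V} (hx : Φ b x = 0) :
    2 * finrank K (LinearMap.range (Φ.flip x)) ≤ f := by
  set D := LinearMap.range (Φ.flip x)
  have hD : D ≤ LinearMap.range (Φ b) := by rintro _ ⟨a, rfl⟩; exact fa1 Φ hle hb a hx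
  have h1 := finrank_comap_of_le (Φ b) D hD
  have h3 : D ≤ (D.comap (Φ b)).dualAnnihilator := by
    intro m hm
    obtain ⟨z, rfl⟩ := hD hm
    obtain ⟨a, ha⟩ := hm
    rw [Submodule.mem_dualAnnihilator]
    rintro z' ⟨a', ha'⟩
    exact hs.iso2 hle hb h2 hx ha.symm ha'.symm
  have h4 := Submodule.finrank_mono h3
  have h5 := Subspace.finrank_add_finrank_dualAnnihilator_eq (D.comap (Φ b))
  have h6 := rk_add_ker (Φ b)
  omega

theorem Sym.prim (hs : Sym Φ) (hle : ∀ a, rk (Φ a) ≤ f) (hgen : ∀ᶠ a in Gen K P, rk (Φ a) = f)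
    (hker : ∀ W : Submodule K V, W ≠ ⊤ → ∀ᶠ a in Gen K P, ¬ LinearMap.ker (Φ a) ≤ W) :
    Prim Φ f := by
  refine ⟨hle, hgen, hker, fun m hm => ?_⟩
  filter_upwards [hker (LinearMap.ker m) (by simpa using hm)] with a ha hc
  exact ha fun x hx => (mem_range_sym (hs a)).1 hc x hx

variable [FiniteDimensional K P]

omit [FiniteDimensional K P] in
theorem Sym.step (hs : Sym Φ) (hle : ∀ a, rk (Φ a) ≤ f) {b : P} (hb : rk (Φ b) = f)
    {M : Submodule K V} (hd : Disjoint M (LinearMap.ker (Φ b))) {x : V} (hx : Φ b x = 0) :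
    finrank K ((kil Φ M).map (Φ.flip x)) ≤ f - finrank K M := by
  have h1 : (kil Φ M).map (Φ.flip x) ≤ (M ⊔ LinearMap.ker (Φ b)).dualAnnihilator := by
    rintro _ ⟨a, ha, rfl⟩
    rw [Submodule.mem_dualAnnihilator]
    intro w hw
    obtain ⟨u, hu, v, hv, rfl⟩ := mem_sup.1 hw
    simp [hs a x u, ha u hu, hs.iso1 hle hb a hx hv]
  have h2 := Submodule.finrank_mono h1
  have h3 := Subspace.finrank_add_finrank_dualAnnihilator_eq (M ⊔ LinearMap.ker (Φ b))
  have h4 := Submodule.finrank_sup_add_finrank_inf_eq M (LinearMap.ker (Φ b))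
  rw [hd.eq_bot, finrank_bot] at h4
  have h5 := rk_add_ker (Φ b)
  omega

theorem Prim.sym_bound (h : Prim Φ f) (hs : Sym Φ) (hf : 1 ≤ f) :
    finrank K P ≤ finrank K (LinearMap.ker Φ) + (f + 1).choose 2 := by
  obtain ⟨x1, a0, -, -, -, hx0, -⟩ := h.first hf
  have hx : x1 ≠ 0 := by rintro rfl; simp at hx0
  have hbot : (⊥ : Submodule K V) ≠ ⊤ := by
    intro ht; exact hx ((Submodule.mem_bot K).1 (ht ▸ mem_top))
  have := h.greedy hbot ⊥ (fun l => l) (fun M _ hd => by
    filter_upwards [h.gen, hd] with b hb hd x hx _ using hs.step h.le hb hd hx)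
    (Eventually.of_forall fun _ => disjoint_bot_left) f (by simp)
  rwa [kil_bot, finrank_top, sum_succ_eq] at this

theorem sum_min_le (c m : ℕ) : ∑ l ∈ Finset.range (c + m), min c (l + 1) ≤
    (c + 1).choose 2 + m * c := by
  rw [Finset.sum_range_add, ← sum_succ_eq]
  refine add_le_add (Finset.sum_le_sum fun _ _ => min_le_right _ _) ?_
  refine (Finset.sum_le_sum (g := fun _ => c) fun _ _ => min_le_left _ _).trans ?_
  simp

theorem Prim.sym_bound' (h : Prim Φ f) (hs : Sym Φ) (hf : 1 ≤ f) (h2 : (2 : K) ≠ 0) :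
    4 ≤ f ∧ finrank K P ≤ finrank K (LinearMap.ker Φ) + (f - 1).choose 2 + 3 := by
  obtain ⟨x1, a0, a1, hr, hx1, hx0, hd⟩ := h.first hf
  have hx : x1 ≠ 0 := by rintro rfl; simp at hx0
  have k1 := h.two_le hx0
  have k2 := hs.half h.le hr h2 hx1
  have hW0 : LinearMap.ker (Φ a0 x1) ≠ ⊤ := by simpa using hx0
  have hP := finrank_eq_first Φ x1
  obtain ⟨c, hc⟩ : ∃ c, f / 2 = c + 1 := ⟨f / 2 - 1, by omega⟩
  obtain ⟨m, hm⟩ : ∃ m, f = c + m + 1 := ⟨f - 1 - c, by omega⟩
  have := h.greedy hW0 (span K {x1}) (fun l => min c l) (fun M hM hd => by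
    filter_upwards [h.gen, hd] with b hb hd x hx hx'
    refine le_min ?_ (hs.step h.le hb hd hx)
    have k3 := hs.half h.le hb h2 hx
    have k4 : (kil Φ M).map (Φ.flip x) < LinearMap.range (Φ.flip x) := by
      refine lt_of_le_of_ne LinearMap.map_le_range fun k5 => hx' ?_
      have : Φ a0 x ∈ (kil Φ M).map (Φ.flip x) := k5 ▸ ⟨a0, rfl⟩
      obtain ⟨a, ha, k6⟩ := this
      have k7 : Φ a x = Φ a0 x := k6
      rw [LinearMap.mem_ker, hs a0, ← k7, hs a, ha x1 (hM (mem_span_singleton_self x1))]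
      rfl
    have := Submodule.finrank_lt_finrank_of_lt k4
    omega) hd (c + m) (by rw [finrank_span_singleton hx]; omega)
  have k8 := sum_min_le c m
  refine ⟨by omega, ?_⟩
  have k9 : c + 1 + (c + 1).choose 2 + m * c ≤ (f - 1).choose 2 + 3 := by
    obtain ⟨d, rfl⟩ : ∃ d, c = d + 1 := ⟨c - 1, by omega⟩
    have e1 := two_mul_choose (d + 1)
    have e2 := two_mul_choose (d + m)
    rw [show f - 1 = d + m + 1 by omega]
    rcases (show m = d + 2 ∨ m = d + 3 by omega) with rfl | rfl <;> nlinarith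
  omega

end Pool.Agent.P.MP_860ca8_ag
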