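import Pool.Agent.P.MP_860ca8_ag.Core
import Pool.Agent.P.MP_860ca8_ag.Defs

/-! The upper bound. -/

namespace Pool.Agent.P.MP_860ca8_ag

open Module Submodule Filter

universe u

theorem add_choose_two (a b : ℕ) : (a + b).choose 2 = a.choose 2 + b.choose 2 + a * b := by
  induction b with
  | zero => simp
  | succ b ih => rw [← add_assoc, choose_succ_two, choose_succ_two, ih]; ring

theorem core_mono_succ (p m : ℕ) (h : minCore p ≤ m) : core p m ≤ core p (m + 1) := by
  unfold minCore at h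
  unfold core
  by_cases hp : p = 2
  · simp only [hp, if_true] at h ⊢
    obtain ⟨k, rfl⟩ : ∃ k, m = k + 1 := ⟨m - 1, by omega⟩
    have e1 := choose_succ_two k
    have e2 := choose_succ_two (k + 1)
    simp only [Nat.add_sub_cancel, Nat.odd_iff]
    split_ifs <;> omega
  · simp only [hp, if_false] at h ⊢
    obtain ⟨k, rfl⟩ : ∃ k, m = k + 2 := ⟨m - 2, by omega⟩
    have e1 := choose_succ_two k
    rw [show k + 2 + 1 - 2 = k + 1 by omega, Nat.add_sub_cancel]
    split_ifs <;> omega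

theorem core_mono (p : ℕ) {m m' : ℕ} (h : minCore p ≤ m) (h' : m ≤ m') : core p m ≤ core p m' := by
  induction h' with
  | refl => exact le_rfl
  | step h1 ih => exact ih.trans (core_mono_succ p _ (h.trans h1))

theorem core_ge (p ρ : ℕ) (h : 5 ≤ ρ) : (ρ - 1).choose 2 + 3 ≤ core p (ρ + 1) := by
  obtain ⟨k, rfl⟩ : ∃ k, ρ = k + 1 := ⟨ρ - 1, by omega⟩
  have e1 := choose_succ_two k
  have e2 := choose_succ_two (k + 1)
  unfold core
  rw [show k + 1 + 1 - 2 = k by omega, Nat.add_sub_cancel, Nat.add_sub_cancel]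
  split_ifs <;> omega

theorem core_num (p ρ r e N k : ℕ) (hre : ρ = r + e)
    (h : (2 ≤ e ∧ e + 1 ≤ r ∧ N + 1 ≤ k + (r + 1).choose 2 + e * e) ∨
      ∃ f d, 1 ≤ f ∧ f ≤ e ∧ d ≤ (f + 1).choose 2 ∧ N ≤ k + (r + 1).choose 2 + r * (e - 2) + d ∧
        (f = e → N ≤ k + (r + 1).choose 2 + d) ∧ (p = 2 → Even f) ∧
        (p ≠ 2 → 4 ≤ f ∧ d ≤ (f - 1).choose 2 + 3 ∧ (ρ = 4 → N ≤ k + 3))) :
    minCore p ≤ ρ + 1 ∧ N ≤ k + core p (ρ + 1) := by
  rcases h with ⟨h1, h2, h3⟩ | ⟨f, d, h1, h2, h3, h4, h5, h6, h7⟩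
  · refine ⟨by unfold minCore; split_ifs <;> omega, ?_⟩
    have k1 := core_ge p ρ (by omega)
    obtain ⟨c, rfl⟩ : ∃ c, e = c + 2 := ⟨e - 2, by omega⟩
    rw [show ρ - 1 = (r + 1) + c by omega, add_choose_two] at k1
    have k2 : (c + 2) * (c + 2) ≤ c.choose 2 + (r + 1) * c + 4 := by
      rcases c with _ | c
      · simp
      · have := two_mul_choose c
        nlinarith
    omega
  by_cases hp : p = 2
  · obtain ⟨g, hg⟩ := h6 hp
    obtain ⟨c, rfl⟩ : ∃ c, e = c + 2 := ⟨e - 2, by omega⟩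
    rw [Nat.add_sub_cancel] at h4
    refine ⟨by unfold minCore; split_ifs <;> omega, ?_⟩
    unfold core
    rw [if_pos hp, Nat.add_sub_cancel]
    have e1 := add_choose_two (r + 1) (c + 2)
    have e2 := add_choose_two (r + 1) (c + 1)
    have e3 := choose_succ_two (c + 2)
    have e4 := choose_succ_two (c + 1)
    have e5 : (f + 1).choose 2 ≤ (c + 2 + 1).choose 2 := Nat.choose_le_choose _ (by omega)
    rw [show r + 1 + (c + 2) = ρ + 1 by omega] at e1
    rw [show r + 1 + (c + 1) = ρ by omega] at e2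
    split_ifs with ho
    · nlinarith
    · by_cases hfe : f = c + 2
      · have k1 := h5 hfe
        have k2 : 1 ≤ r := by rw [Nat.odd_iff] at ho; omega
        nlinarith
      · have e6 : (f + 1).choose 2 ≤ (c + 1 + 1).choose 2 := Nat.choose_le_choose _ (by omega)
        nlinarith
  · obtain ⟨k1, k2, k3⟩ := h7 hp
    refine ⟨by unfold minCore; split_ifs <;> omega, ?_⟩
    by_cases h4' : ρ = 4
    · have := k3 h4'
      subst h4'
      unfold core
      simp only [hp, if_false, if_true]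
      exact this
    have k4 := core_ge p ρ (by omega)
    obtain ⟨c, rfl⟩ : ∃ c, e = c + 2 := ⟨e - 2, by omega⟩
    rw [Nat.add_sub_cancel] at h4
    rw [show ρ - 1 = (r + 1) + c by omega, add_choose_two] at k4
    have e4 := choose_succ_two c
    have e5 : (f - 1).choose 2 ≤ (c + 1).choose 2 := Nat.choose_le_choose _ (by omega)
    nlinarith

variable {K : Type*} [Field K]
variable {P : Type*} [AddCommGroup P] [Module K P]

theorem two_eq_zero_iff : (2 : K) = 0 ↔ ringChar K = 2 := by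
  refine ⟨fun h => ?_, fun h => ?_⟩
  · by_contra hc; exact Ring.two_ne_zero hc h
  · have := ringChar.Nat.cast_ringChar (R := K)
    rw [h] at this; exact_mod_cast this

section
variable {V H : Type*} [AddCommGroup V] [Module K V] [AddCommGroup H] [Module K H]
  [FiniteDimensional K V] [FiniteDimensional K H]

theorem NC.res {Φ : P →ₗ[K] V →ₗ[K] Dual K V} {ρ : ℕ} (h : NC Φ (ρ + 2)) {ι : H →ₗ[K] V}
    (hι : Function.Injective ι) (hH : finrank K H + 1 = finrank K V) : NC (res ι ∘ₗ Φ) ρ := by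
  intro U W hUW
  have k1 := h (U.map ι) (W.comap ι.dualMap) (by
    rintro a _ ⟨u, hu, rfl⟩
    exact hUW a u hu)
  have k2 := finrank_map_add (W.comap ι.dualMap) ι.dualMap
  have k3 : finrank K ((W.comap ι.dualMap).map ι.dualMap) ≤ finrank K W :=
    Submodule.finrank_mono (Submodule.map_comap_le _ _)
  have k4 : finrank K (W.comap ι.dualMap ⊓ LinearMap.ker ι.dualMap : Submodule K _) ≤
    finrank K (LinearMap.ker ι.dualMap) := Submodule.finrank_mono inf_le_right
  have k5 := finrank_ker_dualMap hι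
  have k6 : finrank K (U.map ι) = finrank K U :=
    finrank_map_of_disjoint (by rw [LinearMap.ker_eq_bot.2 hι]; exact disjoint_bot_right)
  omega

theorem Sym.ker_res [FiniteDimensional K P] {Φ : P →ₗ[K] V →ₗ[K] Dual K V} (hs : Sym Φ)
    {m : Dual K V} (hm : m ≠ 0) :
    finrank K (LinearMap.ker (Pool.Agent.P.MP_860ca8_ag.res (LinearMap.ker m).subtype ∘ₗ Φ)) ≤
      finrank K (LinearMap.ker Φ) + finrank K V := by
  obtain ⟨v, hv⟩ : ∃ v, m v ≠ 0 := by
    by_contra hc; push Not at hc; exact hm (LinearMap.ext hc)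
  set S := LinearMap.ker (Pool.Agent.P.MP_860ca8_ag.res (LinearMap.ker m).subtype ∘ₗ Φ)
  have k1 := finrank_map_add S (Φ.flip v)
  have k2 : finrank K (S.map (Φ.flip v)) ≤ finrank K V :=
    (Submodule.finrank_le _).trans Subspace.dual_finrank_eq.le
  have k3 : S ⊓ LinearMap.ker (Φ.flip v) ≤ LinearMap.ker Φ := by
    rintro a ⟨h1, h2⟩
    have h2' : Φ a v = 0 := h2
    have h1' : ∀ x y, m x = 0 → m y = 0 → Φ a x y = 0 := fun x y hx hy =>
      congrArg (fun g => g ⟨x, hx⟩ ⟨y, hy⟩) (LinearMap.mem_ker.1 h1)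
    rw [LinearMap.mem_ker]
    ext x y
    have := h1' (x - (m x / m v) • v) (y - (m y / m v) • v) (by simp [hv]) (by simp [hv])
    simpa [h2', hs a x v] using this
  have := Submodule.finrank_mono k3
  omega

end

theorem upper [Infinite K] [FiniteDimensional K P] (n : ℕ) : ∀ (V : Type u) [AddCommGroup V]
    [Module K V] [FiniteDimensional K V] (Φ : P →ₗ[K] V →ₗ[K] Dual K V) (ρ : ℕ),
    finrank K V = n → Sym Φ → (∀ a, rk (Φ a) ≤ ρ) → NC Φ ρ →
    ∃ s, 2 * s + minCore (ringChar K) ≤ ρ + 1 ∧ finrank K P + s.choose 2 ≤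
      finrank K (LinearMap.ker Φ) + s * n + core (ringChar K) (ρ + 1 - 2 * s) := by
  induction n with
  | zero =>
    intro V _ _ _ Φ ρ hn _ _ hnc
    have := hnc ⊥ ⊥ (fun a u hu => by rw [(Submodule.mem_bot K).1 hu]; simp)
    rw [finrank_bot, finrank_bot] at this
    omega
  | succ n ih =>
    intro V _ _ _ Φ ρ hn hs hle hnc
    obtain ⟨ρ0, hle0, hgen⟩ := exists_max_rk Φ
    have h0 : ρ0 ≤ ρ := by obtain ⟨a, ha⟩ := hgen.exists; exact ha ▸ hle a
    have hnc0 : NC Φ ρ0 := fun U W h => by have := hnc U W h; omega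
    suffices ∃ s, 2 * s + minCore (ringChar K) ≤ ρ0 + 1 ∧ finrank K P + s.choose 2 ≤
        finrank K (LinearMap.ker Φ) + s * (n + 1) + core (ringChar K) (ρ0 + 1 - 2 * s) by
      obtain ⟨s, h1, h2⟩ := this
      have := core_mono (ringChar K) (m := ρ0 + 1 - 2 * s) (m' := ρ + 1 - 2 * s) (by omega)
        (by omega)
      exact ⟨s, by omega, by omega⟩
    by_cases hp : ∃ m : Dual K V, m ≠ 0 ∧
        ∀ a, rk (res (LinearMap.ker m).subtype (Φ a)) + 2 ≤ ρ0
    · obtain ⟨m, hm, hd⟩ := hp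
      obtain ⟨ρ1, rfl⟩ : ∃ ρ1, ρ0 = ρ1 + 2 := ⟨ρ0 - 2, by have := hd 0; omega⟩
      have hH : finrank K (LinearMap.ker m) + 1 = finrank K V :=
        Module.Dual.finrank_ker_add_one_of_ne_zero hm
      obtain ⟨s, h1, h2⟩ := ih (LinearMap.ker m) (res (LinearMap.ker m).subtype ∘ₗ Φ) ρ1 (by omega)
        (hs.res _) (fun a => Nat.le_of_add_le_add_right (hd a))
        (hnc0.res (Submodule.injective_subtype _) hH)
      have h3 := hs.ker_res hm
      refine ⟨s + 1, by omega, ?_⟩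
      rw [show ρ1 + 2 + 1 - 2 * (s + 1) = ρ1 + 1 - 2 * s by omega, choose_succ_two]
      nlinarith
    · obtain ⟨r, e, hre, h⟩ := core_structure hs hle0 hgen (fun m hm h => hp ⟨m, hm, h⟩) hnc0
      simp only [ne_eq, two_eq_zero_iff] at h
      obtain ⟨h1, h2⟩ := core_num (ringChar K) ρ0 r e _ _ hre h
      exact ⟨0, by omega, by simpa using h2⟩

end Pool.Agent.P.MP_860ca8_ag
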